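import Mathlib

/-!
Weighted trees and pairwise compatibility graphs.
-/

namespace Pool.Agent.H684R2.PCG

open SimpleGraph

/-- A tree on the vertex type `W` whose edges carry positive real weights
(the values of `weight` outside the edge set are irrelevant). -/
structure WTree (W : Type) where
  /-- the underlying graph -/
  graph : SimpleGraph W
  /-- it is a tree -/
  isTree : graph.IsTree
  /-- the edge weights -/
  weight : Sym2 W → ℝ
  /-- every edge has positive weight -/
  weight_pos : ∀ e ∈ graph.edgeSet, 0 < weight e

namespace WTree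

variable {W : Type} (T : WTree W)

/-- The sum of the weights of the edges of a walk. -/
def walkWeight {x y : W} (p : T.graph.Walk x y) : ℝ := (p.edges.map T.weight).sum

/-- `T.dist x y` is the sum of the weights on the unique path from `x` to `y`. -/
noncomputable def dist (x y : W) : ℝ :=
  T.walkWeight (T.isTree.existsUnique_path x y).choose

/-- A leaf is a vertex with at most one neighbour. -/
def IsLeaf (x : W) : Prop := ∀ y z, T.graph.Adj x y → T.graph.Adj x z → y = z

theorem dist_eq {x y : W} (p : T.graph.Walk x y) (hp : p.IsPath) :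
    T.dist x y = T.walkWeight p := by
  unfold dist
  have h := (T.isTree.existsUnique_path x y).choose_spec
  have h2 := h.2 p hp
  simp only at h2
  rw [h2]

theorem walkWeight_reverse {x y : W} (p : T.graph.Walk x y) :
    T.walkWeight p.reverse = T.walkWeight p := by
  unfold walkWeight
  rw [Walk.edges_reverse, List.map_reverse, List.sum_reverse]

theorem walkWeight_append {x y z : W} (p : T.graph.Walk x y) (q : T.graph.Walk y z) :
    T.walkWeight (p.append q) = T.walkWeight p + T.walkWeight q := by
  unfold walkWeight
  rw [Walk.edges_append, List.map_append, List.sum_append]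

theorem exists_path (x y : W) : ∃ p : T.graph.Walk x y, p.IsPath :=
  let ⟨p, hp, _⟩ := T.isTree.existsUnique_path x y
  ⟨p, hp⟩

theorem dist_comm (x y : W) : T.dist x y = T.dist y x := by
  obtain ⟨p, hp⟩ := T.exists_path x y
  rw [T.dist_eq p hp, T.dist_eq p.reverse hp.reverse, walkWeight_reverse]

/-- The pairwise compatibility graph `PCG(T, dmin, dmax)` on the leaves of `T`. -/
def pcg (dmin dmax : ℝ) : SimpleGraph {x : W // T.IsLeaf x} where
  Adj u v := u ≠ v ∧ dmin ≤ T.dist u.1 v.1 ∧ T.dist u.1 v.1 ≤ dmax
  symm := ⟨fun u v h => by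
    rw [T.dist_comm v.1 u.1]
    exact ⟨h.1.symm, h.2⟩⟩
  loopless := ⟨fun u h => h.1 rfl⟩

end WTree

/-- The generalized PCG question for a graph `G` on `V` and a set `S` of pairs: is there
a finite edge-weighted tree `T` (with leaves identified with `V` through `φ`) and
`0 ≤ dmin ≤ dmax` such that `PCG(T, dmin, dmax)` contains every edge of `G` and no
pair of `S`. -/
def GenPCG {V : Type} (G : SimpleGraph V) (S : V → V → Prop) : Prop :=
  ∃ (W : Type) (_ : Finite W) (T : WTree W) (dmin dmax : ℝ) (φ : V ≃ {x : W // T.IsLeaf x}),
    0 ≤ dmin ∧ dmin ≤ dmax ∧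
    (∀ u v, G.Adj u v → (T.pcg dmin dmax).Adj (φ u) (φ v)) ∧
    (∀ u v, S u v → ¬ (T.pcg dmin dmax).Adj (φ u) (φ v))

end Pool.Agent.H684R2.PCG
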