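import Pool.Agent.H684R2.PCG.Gadget

/-!
The explicit weighted tree for a satisfying assignment.
-/

namespace Pool.Agent.H684R2.PCG

open SimpleGraph

variable {X C : Type}

/-- The nodes of the tree. -/
inductive Node (X C : Type) : Type
  | hub
  | A (x : X)
  | E (x : X)
  | n (x : X) (s : Bool)
  | f (x : X) (k s : Bool)
  | m (c : C) (s : Bool)
  | leaf (v : Vx X C)

/-- Vertices as a sum type. -/
def Vx.toSum : Vx X C → Bool ⊕ (X × Fin 12) ⊕ (C × Fin 4)
  | .dum b => .inl b
  | .vl x i => .inr (.inl (x, i))
  | .cl c e => .inr (.inr (c, e))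

theorem Vx.toSum_injective : Function.Injective (Vx.toSum (X := X) (C := C)) := by
  intro u v h
  cases u <;> cases v <;> simp [Vx.toSum] at h ⊢ <;> exact h

instance [Finite X] [Finite C] : Finite (Vx X C) := Finite.of_injective _ Vx.toSum_injective

/-- Nodes as a sum type. -/
def Node.toSum : Node X C → Unit ⊕ X ⊕ X ⊕ (X × Bool) ⊕ (X × Bool × Bool) ⊕ (C × Bool) ⊕ Vx X C
  | .hub => .inl ()
  | .A x => .inr (.inl x)
  | .E x => .inr (.inr (.inl x))
  | .n x s => .inr (.inr (.inr (.inl (x, s))))
  | .f x k s => .inr (.inr (.inr (.inr (.inl (x, k, s)))))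
  | .m c s => .inr (.inr (.inr (.inr (.inr (.inl (c, s))))))
  | .leaf v => .inr (.inr (.inr (.inr (.inr (.inr v)))))

theorem Node.toSum_injective : Function.Injective (Node.toSum (X := X) (C := C)) := by
  intro u v h
  cases u <;> cases v <;> simp [Node.toSum] at h ⊢ <;> exact h

instance [Finite X] [Finite C] : Finite (Node X C) := Finite.of_injective _ Node.toSum_injective

/-- The excess of the leaves representing a literal: `-9` (pair short, literal true) or
`9` (pair long, literal false). -/
def exc (b : Bool) : ℝ := if b then -9 else 9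

/-- Which literal the four main leaves of a variable gadget belong to. -/
def mainSign : Fin 12 → Bool := fun i => decide (i = 1 ∨ i = 2)

/-- The parent of a leaf of a variable gadget. -/
def vParent (x : X) (i : Fin 12) : Node X C :=
  if i = 0 ∨ i = 1 then .n x false else
  if i = 2 ∨ i = 3 then .n x true else
  if i = 4 ∨ i = 5 then .f x false false else
  if i = 6 ∨ i = 7 then .f x false true else
  if i = 8 ∨ i = 9 then .f x true false else .f x true true

/-- The length of the pendant edge of a leaf of a variable gadget; `a` is the value of the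
variable. -/
def vLen (a : Bool) (i : Fin 12) : ℝ :=
  if i = 0 ∨ i = 1 ∨ i = 2 ∨ i = 3 then 88 + exc (a == mainSign i) else 97

variable (F : Form X C) (asg : X → Bool) (w : C → Fin 4)

/-- The truth value of the `k`-th literal. -/
def tv (c : C) (k : Fin 4) : Bool := asg (F.lit c k).1 == (F.lit c k).2

/-- The literal next to the witness on side `s`. -/
def side (c : C) (s : Bool) : Fin 4 := if s then w c + 1 else w c + 3

/-- The parent function. -/
def par : Node X C → Node X C
  | .hub => .hub
  | .A _ => .hub
  | .E x => .A x
  | .n x s => if s then .A x else .E x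
  | .f x k _ => if k then .A x else .E x
  | .m c s => if tv F asg c (side w c s) then .hub else .A (F.lit c (side w c s)).1
  | .leaf (.dum _) => .hub
  | .leaf (.vl x i) => vParent x i
  | .leaf (.cl c e) => .m c (decide (e = w c + 1 ∨ e = w c + 2))

/-- The lengths. -/
def lenF : Node X C → ℝ
  | .hub => 0
  | .A _ => 8
  | .E _ => 8
  | .n _ _ => 8
  | .f _ _ _ => 12
  | .m c s => if tv F asg c (side w c s) then 12 else 4
  | .leaf (.dum _) => 100
  | .leaf (.vl x i) => vLen (asg x) i
  | .leaf (.cl c e) => if e = w c ∨ e = w c + 1 then 97 else 79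

/-- The rank. -/
def rk : Node X C → ℕ
  | .hub => 0
  | .A _ => 1
  | .E _ => 2
  | .n _ _ => 3
  | .f _ _ _ => 3
  | .m _ _ => 3
  | .leaf _ => 4

theorem exc_true : exc true = -9 := rfl

theorem exc_false : exc false = 9 := rfl

theorem exc_cases (b : Bool) : exc b = -9 ∨ exc b = 9 := by
  cases b <;> simp [exc]

theorem vParent_cases (x : X) (i : Fin 12) :
    (∃ s, (vParent x i : Node X C) = .n x s) ∨ (∃ k s, (vParent x i : Node X C) = .f x k s) := by
  unfold vParent
  split_ifs <;> simp

/-- The rooted tree. -/
def rooted : Rooted (Node X C) where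
  root := .hub
  parent := par F asg w
  rank := rk
  len := lenF F asg w
  rank_root := rfl
  rank_parent := by
    intro x hx
    match x with
    | .hub => exact absurd rfl hx
    | .A _ => simp [par, rk]
    | .E _ => simp [par, rk]
    | .n _ s => cases s <;> simp [par, rk]
    | .f _ k _ => cases k <;> simp [par, rk]
    | .m c s =>
      simp only [par]
      split_ifs <;> simp [rk]
    | .leaf (.dum _) => simp [par, rk]
    | .leaf (.vl x i) =>
      simp only [par]
      rcases vParent_cases (C := C) x i with ⟨s, h⟩ | ⟨k, s, h⟩ <;> rw [h] <;> simp [rk]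
    | .leaf (.cl c e) => simp [par, rk]
  len_pos := by
    intro x hx
    match x with
    | .hub => exact absurd rfl hx
    | .A _ => norm_num [lenF]
    | .E _ => norm_num [lenF]
    | .n _ s => norm_num [lenF]
    | .f _ k _ => norm_num [lenF]
    | .m c s =>
      simp only [lenF]
      split_ifs <;> norm_num
    | .leaf (.dum _) => norm_num [lenF]
    | .leaf (.vl x i) =>
      simp only [lenF, vLen]
      split_ifs
      · rcases exc_cases (asg x == mainSign i) with h | h <;> rw [h] <;> norm_num
      · norm_num
    | .leaf (.cl c e) =>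
      simp only [lenF]
      split_ifs <;> norm_num

/-- The tree metric. -/
noncomputable abbrev dd (u v : Node X C) : ℝ := (rooted F asg w).tree.dist u v

theorem dd_comm (u v : Node X C) : dd F asg w u v = dd F asg w v u :=
  (rooted F asg w).tree.dist_comm u v

theorem dd_self (u : Node X C) : dd F asg w u u = 0 := (rooted F asg w).tree.dist_self u

theorem dd_step {u v : Node X C} (h : u ≠ v) (hr : rk v ≤ rk u) :
    dd F asg w u v = lenF F asg w u + dd F asg w (par F asg w u) v :=
  (rooted F asg w).dist_step h hr

/-- Two different nodes of the same rank. -/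
theorem dd_step2 {u v : Node X C} (h : u ≠ v) (hr : rk u = rk v)
    (h2 : rk (par F asg w u) < rk v) :
    dd F asg w u v = lenF F asg w u + lenF F asg w v +
      dd F asg w (par F asg w u) (par F asg w v) := by
  rw [dd_step F asg w h hr.symm.le, dd_comm F asg w (par F asg w u) v,
    dd_step F asg w (u := v) (v := par F asg w u) (by rintro rfl; exact lt_irrefl _ h2) h2.le,
    dd_comm F asg w (par F asg w v)]
  ring

theorem dd_leaf {u v : Vx X C} (h : u ≠ v) :
    dd F asg w (.leaf u) (.leaf v) = lenF F asg w (.leaf u) + lenF F asg w (.leaf v) +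
      dd F asg w (par F asg w (.leaf u)) (par F asg w (.leaf v)) := by
  refine dd_step2 F asg w (u := .leaf u) (v := .leaf v) (by simpa using h) (by simp [rk]) ?_
  exact (rooted F asg w).rank_parent (.leaf u) (by simp [rooted])

theorem dd_hub_A (x : X) : dd F asg w .hub (.A x) = 8 := by
  rw [dd_comm, dd_step F asg w (by simp) (by simp [rk])]
  simp [lenF, par, dd_self]

theorem dd_hub_E (x : X) : dd F asg w .hub (.E x) = 16 := by
  rw [dd_comm, dd_step F asg w (by simp) (by simp [rk])]
  simp only [lenF, par]
  rw [dd_comm, dd_hub_A]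
  norm_num

theorem dd_A_E (x : X) : dd F asg w (.A x) (.E x) = 8 := by
  rw [dd_comm, dd_step F asg w (by simp) (by simp [rk])]
  simp [lenF, par, dd_self]

theorem dd_A_A {x y : X} (h : x ≠ y) : dd F asg w (.A x) (.A y) = 16 := by
  rw [dd_step2 F asg w (by simpa using h) (by simp [rk]) (by simp [rk, par])]
  simp only [lenF, par, dd_self]
  norm_num

theorem dd_A_E' {x y : X} (h : x ≠ y) : dd F asg w (.A x) (.E y) = 24 := by
  rw [dd_comm, dd_step F asg w (by simp) (by simp [rk])]
  simp only [lenF, par]
  rw [dd_comm, dd_A_A F asg w h]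
  norm_num

theorem dd_n_n (x : X) : dd F asg w (.n x false) (.n x true) = 24 := by
  rw [dd_step2 F asg w (by simp) (by simp [rk]) (by simp [rk, par])]
  simp only [lenF, par]
  simp only [Bool.false_eq_true, if_false, if_true]
  rw [dd_comm, dd_A_E]
  norm_num

theorem dd_f_f (x : X) (k : Bool) : dd F asg w (.f x k false) (.f x k true) = 24 := by
  rw [dd_step2 F asg w (by simp) (by simp [rk]) (by cases k <;> simp [rk, par])]
  simp only [lenF, par, dd_self]
  norm_num

theorem dd_n_f (x : X) (k s : Bool) : dd F asg w (.n x k) (.f x k s) = 20 := by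
  rw [dd_step2 F asg w (by simp) (by simp [rk]) (by cases k <;> simp [rk, par])]
  simp only [lenF, par, dd_self]
  norm_num

theorem dd_m_m (c : C) (hne : tv F asg c (side w c false) = false →
    tv F asg c (side w c true) = false →
    (F.lit c (side w c false)).1 ≠ (F.lit c (side w c true)).1) :
    dd F asg w (.m c false) (.m c true) = 24 := by
  rw [dd_step2 F asg w (by simp) (by simp [rk]) (by simp only [par]; split_ifs <;> simp [rk])]
  simp only [lenF, par]
  rcases h1 : tv F asg c (side w c false) with _ | _ <;>
    rcases h2 : tv F asg c (side w c true) with _ | _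
  · simp only [Bool.false_eq_true, if_false]
    rw [dd_A_A F asg w (hne h1 h2)]
    norm_num
  · simp only [Bool.false_eq_true, if_false, if_true]
    rw [dd_comm, dd_hub_A]
    norm_num
  · simp only [Bool.false_eq_true, if_false, if_true]
    rw [dd_hub_A]
    norm_num
  · simp only [if_true, dd_self]
    norm_num

/-- Distance from a clause node to a variable node, when the stem runs along the spoke. -/
theorem dd_m_n_along (c : C) (s : Bool) (x : X) (b : Bool)
    (h1 : tv F asg c (side w c s) = false) (hx : (F.lit c (side w c s)).1 = x) :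
    dd F asg w (.m c s) (.n x b) = if b then 12 else 20 := by
  rw [dd_step2 F asg w (by simp) (by simp [rk]) (by simp only [par]; split_ifs <;> simp [rk])]
  simp only [lenF, par, h1, hx]
  cases b
  · simp only [Bool.false_eq_true, if_false, dd_A_E]
    norm_num
  · simp only [Bool.false_eq_true, if_false, if_true, dd_self]
    norm_num

/-- Distance from a clause node to a variable node, when the stem does not run along the
spoke. -/
theorem dd_m_n_off (c : C) (s : Bool) (x : X) (b : Bool)
    (h : tv F asg c (side w c s) = true ∨ (F.lit c (side w c s)).1 ≠ x) :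
    dd F asg w (.m c s) (.n x b) = if b then 28 else 36 := by
  rw [dd_step2 F asg w (by simp) (by simp [rk]) (by simp only [par]; split_ifs <;> simp [rk])]
  simp only [lenF, par]
  rcases h1 : tv F asg c (side w c s) with _ | _
  · have hx : (F.lit c (side w c s)).1 ≠ x := h.resolve_left (by simp [h1])
    cases b
    · simp only [Bool.false_eq_true, if_false]
      rw [dd_A_E' F asg w hx]
      norm_num
    · simp only [Bool.false_eq_true, if_false, if_true]
      rw [dd_A_A F asg w hx]
      norm_num
  · cases b
    · simp only [if_true, Bool.false_eq_true, if_false, dd_hub_E]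
      norm_num
    · simp only [if_true, dd_hub_A]
      norm_num

/-- The leaves of the tree are exactly the nodes `leaf v`. -/
theorem isLeaf_leaf (v : Vx X C) : (rooted F asg w).tree.IsLeaf (.leaf v) := by
  have key : ∀ y, (rooted F asg w).graph.Adj (.leaf v) y → par F asg w (.leaf v) = y := by
    intro y h
    rcases h with ⟨_, h⟩ | ⟨h1, h⟩
    · exact h
    · exfalso
      have hp : par F asg w y = .leaf v := h
      match y with
      | .hub => simp [par] at hp
      | .A _ => simp [par] at hp
      | .E x => simp [par] at hp
      | .n _ s => cases s <;> simp [par] at hp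
      | .f _ k _ => cases k <;> simp [par] at hp
      | .m c s =>
        simp only [par] at hp
        split_ifs at hp
      | .leaf (.dum _) => simp [par] at hp
      | .leaf (.vl x i) =>
        simp only [par] at hp
        rcases vParent_cases (C := C) x i with ⟨s, h⟩ | ⟨k, s, h⟩ <;> rw [h] at hp <;> simp at hp
      | .leaf (.cl c e) => simp [par] at hp
  intro y z hy hz
  exact (key y hy).symm.trans (key z hz)

theorem adj_of_par {u v : Node X C} (hu : u ≠ .hub) (h : par F asg w u = v) :
    (rooted F asg w).tree.graph.Adj u v := Or.inl ⟨hu, h⟩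

theorem not_isLeaf {u v v' : Node X C} (h1 : (rooted F asg w).tree.graph.Adj u v)
    (h2 : (rooted F asg w).tree.graph.Adj u v') (hne : v ≠ v') :
    ¬ (rooted F asg w).tree.IsLeaf u := fun h => hne (h _ _ h1 h2)

theorem leaf_of_isLeaf (u : Node X C) (h : (rooted F asg w).tree.IsLeaf u) :
    ∃ v, Node.leaf v = u := by
  match u, h with
  | .leaf v, _ => exact ⟨v, rfl⟩
  | .hub, h =>
    exfalso
    refine not_isLeaf F asg w (u := .hub) (v := .leaf (.dum false)) (v' := .leaf (.dum true))
      ?_ ?_ (by simp) h
    · exact (adj_of_par F asg w (u := .leaf (.dum false)) (by simp) rfl).symm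
    · exact (adj_of_par F asg w (u := .leaf (.dum true)) (by simp) rfl).symm
  | .A x, h =>
    exfalso
    refine not_isLeaf F asg w (u := .A x) (v := .hub) (v' := .E x) ?_ ?_ (by simp) h
    · exact adj_of_par F asg w (by simp) rfl
    · exact (adj_of_par F asg w (u := .E x) (by simp) rfl).symm
  | .E x, h =>
    exfalso
    refine not_isLeaf F asg w (u := .E x) (v := .A x) (v' := .n x false) ?_ ?_ (by simp) h
    · exact adj_of_par F asg w (by simp) rfl
    · exact (adj_of_par F asg w (u := .n x false) (by simp) rfl).symm
  | .n x s, h =>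
    exfalso
    refine not_isLeaf F asg w (u := .n x s) (v := par F asg w (.n x s))
      (v' := .leaf (.vl x (if s then 2 else 0))) ?_ ?_ ?_ h
    · exact adj_of_par F asg w (by simp) rfl
    · refine (adj_of_par F asg w (by simp) ?_).symm
      cases s <;> simp [par, vParent]
    · cases s <;> simp [par]
  | .f x k s, h =>
    exfalso
    refine not_isLeaf F asg w (u := .f x k s) (v := par F asg w (.f x k s))
      (v' := .leaf (.vl x (if k then (if s then 10 else 8) else (if s then 6 else 4)))) ?_ ?_ ?_ h
    · exact adj_of_par F asg w (by simp) rfl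
    · refine (adj_of_par F asg w (by simp) ?_).symm
      cases s <;> cases k <;> simp [par, vParent]
    · cases k <;> simp [par]
  | .m c s, h =>
    exfalso
    refine not_isLeaf F asg w (u := .m c s) (v := par F asg w (.m c s))
      (v' := .leaf (.cl c (if s then w c + 1 else w c))) ?_ ?_ ?_ h
    · exact adj_of_par F asg w (by simp) rfl
    · refine (adj_of_par F asg w (by simp) ?_).symm
      cases s
      · simp [par]
      · simp [par]
    · simp only [par]
      split_ifs <;> simp

/-- The identification of the vertices with the leaves. -/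
noncomputable def leafEquiv : Vx X C ≃ {x : Node X C // (rooted F asg w).tree.IsLeaf x} :=
  Equiv.ofBijective (fun v => ⟨.leaf v, isLeaf_leaf F asg w v⟩) ⟨fun u v h => by
    simpa using congrArg Subtype.val h, fun ⟨x, hx⟩ => by
    obtain ⟨v, rfl⟩ := leaf_of_isLeaf F asg w x hx
    exact ⟨v, rfl⟩⟩

/-- The conditions for edges inside variable gadgets. -/
theorem varE_ok (x : X) (i j : Fin 12) (h : (i, j) ∈ varE) :
    184 ≤ dd F asg w (.leaf (.vl x i)) (.leaf (.vl x j)) ∧
      dd F asg w (.leaf (.vl x i)) (.leaf (.vl x j)) ≤ 216 := by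
  have hne : i ≠ j := by
    revert i j h
    decide
  rw [dd_leaf F asg w (by simpa using hne)]
  simp only [varE, List.mem_cons, Prod.mk.injEq, List.not_mem_nil, or_false] at h
  rcases hb : asg x with _ | _ <;>
  rcases h with h | h | h | h | h | h | h | h | h | h | h | h | h | h | h | h | h | h | h | h | h | h <;>
  obtain ⟨rfl, rfl⟩ := h <;>
  simp [lenF, par, vLen, vParent, mainSign, exc, dd_n_n, dd_n_f, dd_self, hb] <;>
  norm_num

/-- The conditions for forbidden pairs inside variable gadgets. -/
theorem varS_ok (x : X) (i j : Fin 12) (h : (i, j) ∈ varS) :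
    ¬ (184 ≤ dd F asg w (.leaf (.vl x i)) (.leaf (.vl x j)) ∧
      dd F asg w (.leaf (.vl x i)) (.leaf (.vl x j)) ≤ 216) := by
  have hne : i ≠ j := by
    revert i j h
    decide
  have hnn : dd F asg w (.n x true) (.n x false) = 24 := by rw [dd_comm, dd_n_n]
  rw [dd_leaf F asg w (by simpa using hne)]
  simp only [varS, List.mem_cons, Prod.mk.injEq, List.not_mem_nil, or_false] at h
  rcases hb : asg x with _ | _ <;>
  rcases h with h | h | h | h | h | h | h | h | h | h | h | h <;>
  obtain ⟨rfl, rfl⟩ := h <;>
  simp [lenF, par, vLen, vParent, mainSign, exc, dd_n_n, dd_f_f, dd_self, hnn, hb] <;>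
  norm_num

end Pool.Agent.H684R2.PCG
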