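import Pool.Agent.H684R2.PCG.Defs

/-!
The four point inequality in weighted trees.
-/

namespace Pool.Agent.H684R2.PCG

open SimpleGraph

/-- Appending two paths that only meet in the middle gives a path. -/
theorem isPath_append {W : Type} {G : SimpleGraph W} {x m y : W} (p : G.Walk x m)
    (q : G.Walk m y) (hp : p.IsPath) (hq : q.IsPath)
    (hd : ∀ v ∈ p.support, v ∈ q.support → v = m) : (p.append q).IsPath := by
  induction p with
  | nil => simpa using hq
  | @cons a b c h p' ih =>
    rw [Walk.cons_append, Walk.cons_isPath_iff]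
    rw [Walk.cons_isPath_iff] at hp
    refine ⟨ih q hp.1 hq ?_, ?_⟩
    · intro v hv hv2
      exact hd v (by simp [hv]) hv2
    · intro hmem
      rw [Walk.mem_support_append_iff] at hmem
      rcases hmem with h1 | h1
      · exact hp.2 h1
      · have := hd a (by simp) h1
        subst this
        exact hp.2 (Walk.end_mem_support _)

/-- From `z`, walking along a path `q` to a vertex of `s`, stop at the first vertex of `s`. -/
theorem exists_first {W : Type} {G : SimpleGraph W} (s : Set W) {z x : W} (q : G.Walk z x)
    (hq : q.IsPath) (hx : x ∈ s) :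
    ∃ m ∈ s, ∃ r : G.Walk z m, ∃ r' : G.Walk m x, r.IsPath ∧ r'.IsPath ∧
      (∀ v ∈ r.support, v ∈ s → v = m) ∧ (∀ v ∈ r.support, v ∈ q.support) := by
  classical
  induction q with
  | nil =>
    rename_i u
    exact ⟨u, hx, Walk.nil, Walk.nil, Walk.IsPath.nil, Walk.IsPath.nil,
      fun v hv _ => by simpa using hv, fun v hv => hv⟩
  | @cons a b c h p' ih =>
    by_cases ha : a ∈ s
    · exact ⟨a, ha, Walk.nil, Walk.cons h p', Walk.IsPath.nil, hq,
        fun v hv _ => by simpa using hv, fun v hv => by
          have : v = a := by simpa using hv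
          subst this; simp⟩
    · rw [Walk.cons_isPath_iff] at hq
      obtain ⟨m, hm, r, r', hr, hr', h1, h2⟩ := ih hq.1 hx
      refine ⟨m, hm, Walk.cons h r, r', ?_, hr', ?_, ?_⟩
      · rw [Walk.cons_isPath_iff]
        exact ⟨hr, fun hmem => hq.2 (h2 _ hmem)⟩
      · intro v hv hvs
        rw [Walk.support_cons, List.mem_cons] at hv
        rcases hv with rfl | hv
        · exact absurd hvs ha
        · exact h1 v hv hvs
      · intro v hv
        rw [Walk.support_cons, List.mem_cons] at hv ⊢
        rcases hv with rfl | hv
        · left; rfl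
        · right; exact h2 v hv

namespace WTree

variable {W : Type} (T : WTree W)

theorem walkWeight_nonneg {x y : W} (p : T.graph.Walk x y) : 0 ≤ T.walkWeight p := by
  unfold walkWeight
  apply List.sum_nonneg
  intro a ha
  rw [List.mem_map] at ha
  obtain ⟨e, he, rfl⟩ := ha
  exact (T.weight_pos e (Walk.edges_subset_edgeSet p he)).le

theorem dist_nonneg (x y : W) : 0 ≤ T.dist x y := T.walkWeight_nonneg _

theorem dist_self (x : W) : T.dist x x = 0 := by
  rw [T.dist_eq (Walk.nil : T.graph.Walk x x) Walk.IsPath.nil]
  simp [walkWeight]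

theorem dist_le_walkWeight {x y : W} (p : T.graph.Walk x y) : T.dist x y ≤ T.walkWeight p := by
  classical
  rw [T.dist_eq p.bypass p.bypass_isPath]
  unfold walkWeight
  have h : (p.bypass.edges.map T.weight).Sublist (p.edges.map T.weight) :=
    List.Sublist.map _ (Walk.edges_bypass_sublist_edges p)
  apply List.Sublist.sum_le_sum h
  intro a ha
  rw [List.mem_map] at ha
  obtain ⟨e, he, rfl⟩ := ha
  exact (T.weight_pos e (Walk.edges_subset_edgeSet p he)).le

theorem dist_triangle (x y z : W) : T.dist x z ≤ T.dist x y + T.dist y z := by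
  obtain ⟨p, hp⟩ := T.exists_path x y
  obtain ⟨q, hq⟩ := T.exists_path y z
  rw [T.dist_eq p hp, T.dist_eq q hq, ← walkWeight_append]
  exact T.dist_le_walkWeight _

/-- Medians. -/
theorem exists_median' {x y : W} (p : T.graph.Walk x y) (hp : p.IsPath) (z : W) :
    ∃ m ∈ p.support, T.dist x y = T.dist x m + T.dist m y ∧
    T.dist x z = T.dist x m + T.dist m z ∧ T.dist y z = T.dist y m + T.dist m z := by
  classical
  obtain ⟨q, hq⟩ := T.exists_path z x
  obtain ⟨m, hm, r, r', hr, hr', h1, h2⟩ := exists_first {v | v ∈ p.support} q hq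
    (by simp)
  have hm' : m ∈ p.support := hm
  have htake := hp.takeUntil hm'
  have hdrop := hp.dropUntil hm'
  refine ⟨m, hm', ?_, ?_, ?_⟩
  · rw [T.dist_eq p hp, T.dist_eq _ htake, T.dist_eq _ hdrop, ← walkWeight_append,
      Walk.take_spec]
  · have hP : ((p.takeUntil m hm').append r.reverse).IsPath := by
      apply isPath_append _ _ htake hr.reverse
      intro v hv hv2
      rw [Walk.support_reverse, List.mem_reverse] at hv2
      exact h1 v hv2 (Walk.support_takeUntil_subset_support _ _ hv)
    rw [T.dist_eq _ hP, T.dist_eq _ htake, T.dist_eq _ hr.reverse, walkWeight_append]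
  · have hP : ((p.dropUntil m hm').reverse.append r.reverse).IsPath := by
      apply isPath_append _ _ hdrop.reverse hr.reverse
      intro v hv hv2
      rw [Walk.support_reverse, List.mem_reverse] at hv hv2
      exact h1 v hv2 (Walk.support_dropUntil_subset_support _ _ hv)
    rw [T.dist_eq _ hP, T.dist_eq _ hdrop.reverse, T.dist_eq _ hr.reverse, walkWeight_append]

theorem exists_median (x y z : W) : ∃ m, T.dist x y = T.dist x m + T.dist m y ∧
    T.dist x z = T.dist x m + T.dist m z ∧ T.dist y z = T.dist y m + T.dist m z := by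
  obtain ⟨p, hp⟩ := T.exists_path x y
  obtain ⟨m, _, h⟩ := T.exists_median' p hp z
  exact ⟨m, h⟩

theorem eq_of_dist_eq_zero {x y : W} (h : T.dist x y = 0) : x = y := by
  obtain ⟨p, hp⟩ := T.exists_path x y
  rw [T.dist_eq p hp] at h
  cases p with
  | nil => rfl
  | @cons _ c _ hadj p' =>
    exfalso
    have h1 : 0 < T.weight s(x, c) := T.weight_pos _ ((mem_edgeSet _).2 hadj)
    have h2 := T.walkWeight_nonneg p'
    unfold walkWeight at h h2
    rw [Walk.edges_cons, List.map_cons, List.sum_cons] at h
    linarith

theorem mem_support_of_dist_eq {x z m : W} (p : T.graph.Walk x z) (hp : p.IsPath)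
    (h : T.dist x z = T.dist x m + T.dist m z) : m ∈ p.support := by
  obtain ⟨c, hc, h1, h2, h3⟩ := T.exists_median' p hp m
  have e1 := T.dist_comm z m
  have e2 := T.dist_comm z c
  have : T.dist c m = 0 := by linarith
  have := T.eq_of_dist_eq_zero this
  subst this
  exact hc

/-- If `m` and `m'` lie on the path from `x` to `z`, then one of them comes first. -/
theorem on_path {x z m m' : W} (h : T.dist x z = T.dist x m + T.dist m z)
    (h' : T.dist x z = T.dist x m' + T.dist m' z) :
    T.dist x m' = T.dist x m + T.dist m m' ∨ T.dist x m = T.dist x m' + T.dist m m' := by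
  classical
  obtain ⟨p, hp⟩ := T.exists_path x z
  have hm := T.mem_support_of_dist_eq p hp h
  have hm' := T.mem_support_of_dist_eq p hp h'
  have hsp := Walk.take_spec p hm
  rw [← hsp, Walk.mem_support_append_iff] at hm'
  rcases hm' with h1 | h1
  · right
    have htake := hp.takeUntil hm
    have e := Walk.take_spec (p.takeUntil m hm) h1
    have ha := htake.takeUntil h1
    have hb := htake.dropUntil h1
    rw [T.dist_eq _ htake, T.dist_eq _ ha, T.dist_comm m m', T.dist_eq _ hb,
      ← walkWeight_append, e]
  · left
    have hdrop := hp.dropUntil hm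
    have e := Walk.take_spec (p.dropUntil m hm) h1
    have ha := hdrop.takeUntil h1
    have hb := hdrop.dropUntil h1
    have : T.dist m z = T.dist m m' + T.dist m' z := by
      rw [T.dist_eq _ hdrop, T.dist_eq _ ha, T.dist_eq _ hb, ← walkWeight_append, e]
    linarith

/-- The four point inequality. -/
theorem four_point (x y z u : W) :
    T.dist y u + T.dist x z ≤ max (T.dist y z + T.dist x u) (T.dist x y + T.dist z u) := by
  obtain ⟨m, hm1, hm2, hm3⟩ := T.exists_median x y z
  obtain ⟨m', hn1, hn2, hn3⟩ := T.exists_median x z u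
  have cc := T.dist_comm m y
  have cc2 := T.dist_comm m' z
  have cc3 := T.dist_comm m z
  rcases T.on_path hm2 hn1 with h | h
  · -- `m` comes first
    have t1 := T.dist_triangle y m u
    have t2 := T.dist_triangle m m' u
    apply le_max_of_le_left
    linarith
  · have t1 := T.dist_triangle y m' u
    have t2 := T.dist_triangle y m m'
    apply le_max_of_le_right
    linarith

/-- Four point inequality, usual form. -/
theorem four_point' (a b c d : W) :
    T.dist a b + T.dist c d ≤ max (T.dist a c + T.dist b d) (T.dist a d + T.dist b c) := by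
  have := T.four_point c a d b
  have e1 := T.dist_comm c a
  have e2 := T.dist_comm c b
  have e3 := T.dist_comm d b
  rw [e1, e2, e3, max_comm] at this
  exact this

end WTree

end Pool.Agent.H684R2.PCG
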