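import Pool.Agent.H684R2.PCG.Red

/-!
From 3-CNF formulas to the four-position formulas.
-/

namespace Pool.Agent.H684R2.PCG

/-- A 3-clause. -/
abbrev Cl3 : Type := Lit × Lit × Lit

/-- A literal is true. -/
def LTrue (asg : ℕ → Bool) (l : Lit) : Prop := asg l.1 = l.2

/-- Satisfiability of 3-CNF formulas. -/
def Sat3 (φ : List Cl3) : Prop :=
  ∃ asg : ℕ → Bool, ∀ c ∈ φ, LTrue asg c.1 ∨ LTrue asg c.2.1 ∨ LTrue asg c.2.2

/-- The list of the occurrences of literals. -/
def occ (φ : List Cl3) : List Lit := φ.flatMap (fun c => [c.1, c.2.1, c.2.2])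

theorem occ_length (φ : List Cl3) : (occ φ).length = 3 * φ.length := by
  unfold occ
  induction φ with
  | nil => rfl
  | cons a l ih =>
    rw [List.flatMap_cons, List.length_append, ih, List.length_cons]
    simp only [List.length_cons, List.length_nil]
    ring

theorem occ_get (φ : List Cl3) : ∀ (c : ℕ) (cl : Cl3), φ[c]? = some cl →
    (occ φ)[3 * c]? = some cl.1 ∧ (occ φ)[3 * c + 1]? = some cl.2.1 ∧
    (occ φ)[3 * c + 2]? = some cl.2.2 := by
  induction φ with
  | nil =>
    intro c cl h
    simp at h
  | cons a l ih =>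
    intro c cl h
    have e : occ (a :: l) = a.1 :: a.2.1 :: a.2.2 :: occ l := rfl
    cases c with
    | zero =>
      simp only [List.getElem?_cons_zero, Option.some.injEq] at h
      subst h
      rw [e]
      exact ⟨rfl, rfl, rfl⟩
    | succ c =>
      simp only [List.getElem?_cons_succ] at h
      obtain ⟨h1, h2, h3⟩ := ih c cl h
      rw [e]
      refine ⟨?_, ?_, ?_⟩
      · have : 3 * (c + 1) = 3 * c + 1 + 1 + 1 := by ring
        rw [this]
        simpa using h1
      · have : 3 * (c + 1) + 1 = 3 * c + 1 + 1 + 1 + 1 := by ring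
        rw [this]
        simpa using h2
      · have : 3 * (c + 1) + 2 = 3 * c + 2 + 1 + 1 + 1 := by ring
        rw [this]
        simpa using h3

/-- The clauses for the clauses. -/
def mains (φ : List Cl3) : List Cl4 :=
  (List.range φ.length).map (fun c =>
    ((3 * c, true), (3 * c, true), (3 * c + 1, true), (3 * c + 2, true)))

/-- Two literals are complementary. -/
def compl (l l' : Lit) : Bool := decide (l.1 = l'.1) && (l.2 ^^ l'.2)

/-- The conflict clauses. -/
def confs (φ : List Cl3) : List Cl4 :=
  (occ φ).zipIdx.flatMap (fun p => ((occ φ).zipIdx.filter (fun q => compl p.1 q.1)).map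
    (fun q => ((p.2, false), (p.2, false), (q.2, false), (q.2, false))))

/-- All clauses. -/
def cls4 (φ : List Cl3) : List Cl4 := mains φ ++ confs φ

theorem compl_iff {l l' : Lit} : compl l l' = true ↔ l.1 = l'.1 ∧ l.2 ≠ l'.2 := by
  obtain ⟨x, b⟩ := l
  obtain ⟨y, c⟩ := l'
  unfold compl
  cases b <;> cases c <;> simp

theorem mem_confs {φ : List Cl3} {cl : Cl4} : cl ∈ confs φ ↔ ∃ i j l l',
    (occ φ)[i]? = some l ∧ (occ φ)[j]? = some l' ∧ l.1 = l'.1 ∧ l.2 ≠ l'.2 ∧
    ((i, false), (i, false), (j, false), (j, false)) = cl := by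
  unfold confs
  rw [List.mem_flatMap]
  constructor
  · rintro ⟨⟨l, i⟩, h1, h2⟩
    rw [List.mem_map] at h2
    obtain ⟨⟨l', j⟩, h3, h4⟩ := h2
    rw [List.mem_filter] at h3
    rw [List.mem_zipIdx_iff_getElem?] at h1
    have h5 := h3.1
    rw [List.mem_zipIdx_iff_getElem?] at h5
    have h6 := compl_iff.1 h3.2
    exact ⟨i, j, l, l', h1, h5, h6.1, h6.2, h4⟩
  · rintro ⟨i, j, l, l', h1, h2, h3, h4, h5⟩
    refine ⟨(l, i), List.mem_zipIdx_iff_getElem?.2 h1, ?_⟩
    rw [List.mem_map]
    refine ⟨(l', j), ?_, h5⟩
    rw [List.mem_filter]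
    exact ⟨List.mem_zipIdx_iff_getElem?.2 h2, compl_iff.2 ⟨h3, h4⟩⟩

theorem fin4 : ∀ k : Fin 4, k = 0 ∨ k = 1 ∨ k = 2 ∨ k = 3 := by decide

theorem good_cls4 (φ : List Cl3) : Good (3 * φ.length) (cls4 φ) := by
  intro cl hcl
  unfold cls4 at hcl
  rw [List.mem_append] at hcl
  rcases hcl with h | h
  · unfold mains at h
    rw [List.mem_map] at h
    obtain ⟨c, hc, rfl⟩ := h
    rw [List.mem_range] at hc
    refine ⟨?_, ?_, ?_⟩
    · intro k
      rcases fin4 k with rfl | rfl | rfl | rfl
      · show 3 * c < _; omega
      · show 3 * c < _; omega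
      · show 3 * c + 1 < _; omega
      · show 3 * c + 2 < _; omega
    · intro k
      rcases fin4 k with rfl | rfl | rfl | rfl
      · intro _; rfl
      · show 3 * c = 3 * c + 1 → _; intro h; omega
      · show 3 * c + 1 = 3 * c + 2 → _; intro h; omega
      · show 3 * c + 2 = 3 * c → _; intro h; omega
    · intro k
      rcases fin4 k with rfl | rfl | rfl | rfl
      · show 3 * c ≠ 3 * c + 1; omega
      · show 3 * c ≠ 3 * c + 2; omega
      · show 3 * c + 1 ≠ 3 * c; omega
      · show 3 * c + 2 ≠ 3 * c; omega
  · obtain ⟨i, j, l, l', h1, h2, h3, h4, rfl⟩ := mem_confs.1 h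
    have hi : i < 3 * φ.length := by
      rw [← occ_length]
      exact (List.getElem?_eq_some_iff.1 h1).1
    have hj : j < 3 * φ.length := by
      rw [← occ_length]
      exact (List.getElem?_eq_some_iff.1 h2).1
    have hij : i ≠ j := by
      rintro rfl
      rw [h1] at h2
      simp only [Option.some.injEq] at h2
      subst h2
      exact h4 rfl
    refine ⟨?_, ?_, ?_⟩
    · intro k
      rcases fin4 k with rfl | rfl | rfl | rfl
      · exact hi
      · exact hi
      · exact hj
      · exact hj
    · intro k
      rcases fin4 k with rfl | rfl | rfl | rfl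
      · intro _; rfl
      · show i = j → _; intro h; exact absurd h hij
      · intro _; rfl
      · show j = i → _; intro h; exact absurd h.symm hij
    · intro k
      rcases fin4 k with rfl | rfl | rfl | rfl
      · show i ≠ j; exact hij
      · show i ≠ j; exact hij
      · show j ≠ i; exact hij.symm
      · show j ≠ i; exact hij.symm

/-- The value of an occurrence under an assignment. -/
theorem sat_cls4_iff (φ : List Cl3) :
    (toForm (3 * φ.length) (cls4 φ) (good_cls4 φ)).Sat ↔ Sat3 φ := by
  constructor
  · rintro ⟨a, ha⟩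
    -- extend to naturals
    let b : ℕ → Bool := fun i => if h : i < 3 * φ.length then a ⟨i, h⟩ else false
    have hb : ∀ cl ∈ cls4 φ, ∃ k, b (cl.get k).1 = (cl.get k).2 := by
      intro cl hcl
      obtain ⟨c, hc⟩ := List.get_of_mem hcl
      subst hc
      obtain ⟨k, hk⟩ := ha c
      refine ⟨k, ?_⟩
      simp only [toForm] at hk
      have hlt := (good_cls4 φ _ hcl).1 k
      simp only [b]
      rw [dif_pos hlt]
      exact hk
    -- the conflict clauses
    have hconf : ∀ i j l l', (occ φ)[i]? = some l → (occ φ)[j]? = some l' → l.1 = l'.1 →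
        b i = true → b j = true → l.2 = l'.2 := by
      intro i j l l' h1 h2 h3 hi hj
      by_contra h4
      obtain ⟨k, hk⟩ := hb ((i, false), (i, false), (j, false), (j, false)) (by
        unfold cls4
        rw [List.mem_append]
        right
        exact mem_confs.2 ⟨i, j, l, l', h1, h2, h3, h4, rfl⟩)
      rcases fin4 k with rfl | rfl | rfl | rfl
      · have hk' : b i = false := hk
        rw [hi] at hk'
        exact Bool.noConfusion hk'
      · have hk' : b i = false := hk
        rw [hi] at hk'
        exact Bool.noConfusion hk'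
      · have hk' : b j = false := hk
        rw [hj] at hk'
        exact Bool.noConfusion hk'
      · have hk' : b j = false := hk
        rw [hj] at hk'
        exact Bool.noConfusion hk'
    classical
    -- the assignment: true iff some true occurrence of the positive literal
    refine ⟨fun x => decide (∃ i, (occ φ)[i]? = some (x, true) ∧ b i = true), ?_⟩
    have key : ∀ i l, (occ φ)[i]? = some l → b i = true →
        LTrue (fun x => decide (∃ i, (occ φ)[i]? = some (x, true) ∧ b i = true)) l := by
      rintro i ⟨x, s⟩ h1 h2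
      unfold LTrue
      simp only
      cases s
      · rw [decide_eq_false_iff_not]
        rintro ⟨j, h3, h4⟩
        have := hconf i j _ _ h1 h3 rfl h2 h4
        exact Bool.noConfusion this
      · rw [decide_eq_true_eq]
        exact ⟨i, h1, h2⟩
    intro cl hcl
    obtain ⟨c, hc⟩ := List.get_of_mem hcl
    have hget : φ[c.val]? = some cl := by
      rw [← hc]
      simp
    obtain ⟨h1, h2, h3⟩ := occ_get φ c cl hget
    obtain ⟨k, hk⟩ := hb ((3 * c.val, true), (3 * c.val, true), (3 * c.val + 1, true),
      (3 * c.val + 2, true)) (by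
        unfold cls4 mains
        rw [List.mem_append, List.mem_map]
        left
        exact ⟨c.val, List.mem_range.2 c.2, rfl⟩)
    rcases fin4 k with rfl | rfl | rfl | rfl
    · exact Or.inl (key _ _ h1 hk)
    · exact Or.inl (key _ _ h1 hk)
    · exact Or.inr (Or.inl (key _ _ h2 hk))
    · exact Or.inr (Or.inr (key _ _ h3 hk))
  · rintro ⟨asg, h⟩
    -- value of occurrence i
    let val : ℕ → Bool := fun i => match (occ φ)[i]? with
      | none => false
      | some l => asg l.1 == l.2
    have hval : ∀ i l, (occ φ)[i]? = some l → val i = (asg l.1 == l.2) := by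
      intro i l h
      simp only [val]
      rw [h]
    refine ⟨fun i => val i.val, fun c => ?_⟩
    have hmem : (cls4 φ).get c ∈ cls4 φ := List.get_mem _ _
    simp only [toForm]
    generalize (cls4 φ).get c = cl at hmem
    unfold cls4 at hmem
    rw [List.mem_append] at hmem
    rcases hmem with hmem | hmem
    · unfold mains at hmem
      rw [List.mem_map] at hmem
      obtain ⟨d, hd, rfl⟩ := hmem
      rw [List.mem_range] at hd
      have hget : φ[d]? = some φ[d] := by simp [hd]
      obtain ⟨h1, h2, h3⟩ := occ_get φ d _ hget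
      rcases h φ[d] (List.getElem_mem hd) with h4 | h4 | h4
      · refine ⟨0, ?_⟩
        show val (3 * d) = true
        rw [hval _ _ h1]
        simpa [LTrue] using h4
      · refine ⟨2, ?_⟩
        show val (3 * d + 1) = true
        rw [hval _ _ h2]
        simpa [LTrue] using h4
      · refine ⟨3, ?_⟩
        show val (3 * d + 2) = true
        rw [hval _ _ h3]
        simpa [LTrue] using h4
    · obtain ⟨i, j, l, l', h1, h2, h3, h4, rfl⟩ := mem_confs.1 hmem
      by_cases hi : asg l.1 = l.2
      · refine ⟨2, ?_⟩
        show val j = false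
        rw [hval _ _ h2, ← h3]
        rw [hi]
        simpa using h4
      · refine ⟨0, ?_⟩
        show val i = false
        rw [hval _ _ h1]
        simpa using hi

/-- The reduction. -/
def red (φ : List Cl3) : Inst := mkInst (3 * φ.length) (cls4 φ)

theorem red_iff (φ : List Cl3) : (red φ).GenPCGRecognition ↔ Sat3 φ := by
  unfold red
  rw [mkInst_iff (good_cls4 φ), sat_cls4_iff]

end Pool.Agent.H684R2.PCG
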