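import Pool.Agent.H684R2.PCG.Rooted

/-!
The gadgets: a graph with a set of forbidden pairs, built from a formula whose clauses have
four literal positions.
-/

namespace Pool.Agent.H684R2.PCG

open SimpleGraph

/-- The sandwich version of the PCG question for arbitrary relations. -/
def Sandwich {V : Type} (E S : V → V → Prop) : Prop :=
  ∃ (W : Type) (_ : Finite W) (T : WTree W) (dmin dmax : ℝ) (φ : V ≃ {x : W // T.IsLeaf x}),
    0 ≤ dmin ∧ dmin ≤ dmax ∧
    (∀ u v, E u v → dmin ≤ T.dist (φ u).1 (φ v).1 ∧ T.dist (φ u).1 (φ v).1 ≤ dmax) ∧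
    (∀ u v, S u v → ¬ (dmin ≤ T.dist (φ u).1 (φ v).1 ∧ T.dist (φ u).1 (φ v).1 ≤ dmax))

/-- A formula with four literal positions per clause; literals at adjacent positions
(cyclically) with the same variable agree, and literals at opposite positions have different
variables. -/
structure Form (X C : Type) where
  lit : C → Fin 4 → X × Bool
  adj : ∀ c k, (lit c k).1 = (lit c (k + 1)).1 → lit c k = lit c (k + 1)
  opp : ∀ c k, (lit c k).1 ≠ (lit c (k + 2)).1

/-- The vertices. -/
inductive Vx (X C : Type) : Type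
  | dum (b : Bool)
  | vl (x : X) (i : Fin 12)
  | cl (c : C) (e : Fin 4)

/-- Edges inside a variable gadget. Positions: `p = 0, q = 1, r = 2, t = 3`, and the leaves
`4,5,6,7` force `pq` short and `8,9,10,11` force `rt` short. -/
def varE : List (Fin 12 × Fin 12) :=
  [(0, 2), (1, 3), (4, 5), (6, 7), (8, 9), (10, 11),
   (0, 4), (0, 5), (0, 6), (0, 7), (1, 4), (1, 5), (1, 6), (1, 7),
   (2, 8), (2, 9), (2, 10), (2, 11), (3, 8), (3, 9), (3, 10), (3, 11)]

/-- Forbidden pairs inside a variable gadget. -/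
def varS : List (Fin 12 × Fin 12) :=
  [(0, 1), (1, 2), (2, 3), (3, 0), (4, 6), (4, 7), (5, 6), (5, 7),
   (8, 10), (8, 11), (9, 10), (9, 11)]

/-- Edges inside a clause gadget. -/
def clE : List (Fin 4 × Fin 4) := [(0, 2), (1, 3)]

/-- Forbidden pairs inside a clause gadget. -/
def clS : List (Fin 4 × Fin 4) := [(0, 1), (1, 2), (2, 3), (3, 0)]

/-- The two leaves representing a literal. -/
def litPair : Bool → List (Fin 12)
  | true => [1, 2]
  | false => [3, 0]

variable {X C : Type}

/-- The forbidden pairs. -/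
inductive SRel : Vx X C → Vx X C → Prop
  | var (x : X) (i j : Fin 12) (h : (i, j) ∈ varS) : SRel (Vx.vl x i) (Vx.vl x j)
  | cla (c : C) (i j : Fin 4) (h : (i, j) ∈ clS) : SRel (Vx.cl c i) (Vx.cl c j)

namespace Form

variable (F : Form X C)

/-- The edges. -/
inductive ERel : Vx X C → Vx X C → Prop
  | var (x : X) (i j : Fin 12) (h : (i, j) ∈ varE) : ERel (Vx.vl x i) (Vx.vl x j)
  | cla (c : C) (i j : Fin 4) (h : (i, j) ∈ clE) : ERel (Vx.cl c i) (Vx.cl c j)
  | link (c : C) (k e : Fin 4) (u : Fin 12) (he : e = k ∨ e = k + 1)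
      (hu : u ∈ litPair (F.lit c k).2) : ERel (Vx.cl c e) (Vx.vl (F.lit c k).1 u)

/-- Satisfiability. -/
def Sat : Prop := ∃ asg : X → Bool, ∀ c, ∃ k, asg (F.lit c k).1 = (F.lit c k).2

section necessity

variable {W : Type} {T : WTree W} {dmin dmax : ℝ}

/-- `C4`: if all four cross pairs are edges, not both diagonals are long. -/
theorem c4_lemma {x y u v : W} (h1 : T.dist x u ≤ dmax) (h2 : T.dist x v ≤ dmax)
    (h3 : T.dist y u ≤ dmax) (h4 : T.dist y v ≤ dmax) (hxy : dmax < T.dist x y) :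
    ¬ dmax < T.dist u v := by
  intro huv
  have := T.four_point' x y u v
  rcases le_max_iff.1 this with h | h <;> linarith

/-- `2K2`: with edges `pr`, `qt`, not all of `pq, qr, rt, tp` are short. -/
theorem twoK2_lemma {p q r t : W} (h1 : dmin ≤ T.dist p r) (h2 : dmin ≤ T.dist q t)
    (hpq : T.dist p q < dmin) (hqr : T.dist q r < dmin) (hrt : T.dist r t < dmin)
    (htp : T.dist t p < dmin) : False := by
  have := T.four_point' p r q t
  have e1 := T.dist_comm p t
  have e2 := T.dist_comm q r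
  rcases le_max_iff.1 this with h | h <;> linarith

theorem sat_of_sandwich (h : Sandwich F.ERel (SRel (X := X) (C := C))) : F.Sat := by
  classical
  obtain ⟨W, _, T, dmin, dmax, φ, h0, hle, hE, hS⟩ := h
  set d : Vx X C → Vx X C → ℝ := fun u v => T.dist (φ u).1 (φ v).1 with hd
  have hEd : ∀ u v, F.ERel u v → dmin ≤ d u v ∧ d u v ≤ dmax := hE
  have hcomm : ∀ u v, d u v = d v u := fun u v => T.dist_comm _ _
  have hNd : ∀ u v, SRel u v → ¬ dmax < d u v → d u v < dmin := by
    intro u v h1 h2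
    by_contra h3
    exact hS u v h1 ⟨not_lt.1 h3, not_lt.1 h2⟩
  -- forced short pairs
  have forced : ∀ (x : X) (i j a a' b b' : Fin 12), (a, a') ∈ varE → (b, b') ∈ varE →
      (i, a) ∈ varE → (i, a') ∈ varE → (i, b) ∈ varE → (i, b') ∈ varE →
      (j, a) ∈ varE → (j, a') ∈ varE → (j, b) ∈ varE → (j, b') ∈ varE →
      (a, b) ∈ varS → (a, b') ∈ varS → (a', b) ∈ varS → (a', b') ∈ varS →
      ¬ dmax < d (Vx.vl x i) (Vx.vl x j) := by
    intro x i j a a' b b' haa hbb hia hia' hib hib' hja hja' hjb hjb' sab sab' sa'b sa'b'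
    have E := fun (i j : Fin 12) (h : (i, j) ∈ varE) => hEd _ _ (ERel.var x i j h)
    intro hlong
    have key : ∀ c c' : Fin 12, (i, c) ∈ varE → (i, c') ∈ varE → (j, c) ∈ varE →
        (j, c') ∈ varE → ¬ dmax < d (Vx.vl x c) (Vx.vl x c') := by
      intro c c' h1 h2 h3 h4
      exact c4_lemma (E i c h1).2 (E i c' h2).2 (E j c h3).2 (E j c' h4).2 hlong
    have s1 := hNd _ _ (SRel.var x a b sab) (key a b hia hib hja hjb)
    have s2 := hNd _ _ (SRel.var x a b' sab') (key a b' hia hib' hja hjb')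
    have s3 := hNd _ _ (SRel.var x a' b sa'b) (key a' b hia' hib hja' hjb)
    have s4 := hNd _ _ (SRel.var x a' b' sa'b') (key a' b' hia' hib' hja' hjb')
    rw [hcomm] at s2 s3
    rw [hcomm] at s3
    refine twoK2_lemma (T := T) (dmin := dmin) (p := (φ (Vx.vl x a)).1)
      (q := (φ (Vx.vl x b)).1) (r := (φ (Vx.vl x a')).1) (t := (φ (Vx.vl x b')).1)
      (E a a' haa).1 (E b b' hbb).1 s1 ?_ s4 s2
    rw [T.dist_comm]
    exact s3
  have pq : ∀ x, ¬ dmax < d (Vx.vl x 0) (Vx.vl x 1) := fun x =>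
    forced x 0 1 4 5 6 7 (by decide) (by decide) (by decide) (by decide) (by decide)
      (by decide) (by decide) (by decide) (by decide) (by decide) (by decide) (by decide)
      (by decide) (by decide)
  have rt : ∀ x, ¬ dmax < d (Vx.vl x 2) (Vx.vl x 3) := fun x =>
    forced x 2 3 8 9 10 11 (by decide) (by decide) (by decide) (by decide) (by decide)
      (by decide) (by decide) (by decide) (by decide) (by decide) (by decide) (by decide)
      (by decide) (by decide)
  -- at least one of `qr`, `tp` is long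
  have var : ∀ x, dmax < d (Vx.vl x 1) (Vx.vl x 2) ∨ dmax < d (Vx.vl x 3) (Vx.vl x 0) := by
    intro x
    by_contra hcon
    rw [not_or] at hcon
    have s1 := hNd _ _ (SRel.var x 0 1 (by decide)) (pq x)
    have s2 := hNd _ _ (SRel.var x 1 2 (by decide)) hcon.1
    have s3 := hNd _ _ (SRel.var x 2 3 (by decide)) (rt x)
    have s4 := hNd _ _ (SRel.var x 3 0 (by decide)) hcon.2
    exact twoK2_lemma (T := T) (dmin := dmin) (hEd _ _ (ERel.var x 0 2 (by decide))).1
      (hEd _ _ (ERel.var x 1 3 (by decide))).1 s1 s2 s3 s4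
  refine ⟨fun x => decide (¬ dmax < d (Vx.vl x 1) (Vx.vl x 2)), fun c => ?_⟩
  -- some pair of the clause gadget is long
  have hlong : ∃ k : Fin 4, dmax < d (Vx.cl c k) (Vx.cl c (k + 1)) := by
    by_contra hcon
    rw [not_exists] at hcon
    have s1 := hNd _ _ (SRel.cla c 0 1 (by decide)) (hcon 0)
    have s2 := hNd _ _ (SRel.cla c 1 2 (by decide)) (hcon 1)
    have s3 := hNd _ _ (SRel.cla c 2 3 (by decide)) (hcon 2)
    have s4 := hNd _ _ (SRel.cla c 3 0 (by decide)) (hcon 3)
    exact twoK2_lemma (T := T) (dmin := dmin) (hEd _ _ (ERel.cla c 0 2 (by decide))).1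
      (hEd _ _ (ERel.cla c 1 3 (by decide))).1 s1 s2 s3 s4
  obtain ⟨k, hk⟩ := hlong
  refine ⟨k, ?_⟩
  have L := fun (e : Fin 4) (u : Fin 12) (he : e = k ∨ e = k + 1)
    (hu : u ∈ litPair (F.lit c k).2) => hEd _ _ (ERel.link (F := F) c k e u he hu)
  rcases hb : (F.lit c k).2 with _ | _
  · -- negative literal: the pair (3, 0) is not long
    rw [hb] at L
    have hn : ¬ dmax < d (Vx.vl (F.lit c k).1 3) (Vx.vl (F.lit c k).1 0) :=
      c4_lemma (L k 3 (Or.inl rfl) (by decide)).2 (L k 0 (Or.inl rfl) (by decide)).2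
        (L (k + 1) 3 (Or.inr rfl) (by decide)).2 (L (k + 1) 0 (Or.inr rfl) (by decide)).2 hk
    have := (var (F.lit c k).1).resolve_right hn
    simp [this]
  · rw [hb] at L
    have hn : ¬ dmax < d (Vx.vl (F.lit c k).1 1) (Vx.vl (F.lit c k).1 2) :=
      c4_lemma (L k 1 (Or.inl rfl) (by decide)).2 (L k 2 (Or.inl rfl) (by decide)).2
        (L (k + 1) 1 (Or.inr rfl) (by decide)).2 (L (k + 1) 2 (Or.inr rfl) (by decide)).2 hk
    simpa using hn

end necessity

end Form

end Pool.Agent.H684R2.PCG
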