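import Pool.Agent.H684R2.PCG.RedPoly
import Pool.Agent.NPC.Sat

/-!
NP-hardness of generalized PCG recognition.
-/

namespace Pool.Agent.H684R2.PCG

open Pool.Agent.NPC

/-- Change of format of the clauses. -/
def conv (φ : List (NPC.Lit ℕ × NPC.Lit ℕ × NPC.Lit ℕ)) : List Cl3 :=
  φ.map (fun c => ((c.1.2, c.1.1), (c.2.1.2, c.2.1.1), (c.2.2.2, c.2.2.1)))

theorem poly_conv : NPC.Poly conv := by
  have : NPC.Poly (fun φ : List (NPC.Lit ℕ × NPC.Lit ℕ × NPC.Lit ℕ) =>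
      φ.map (fun c => (((c.1.2, c.1.1), (c.2.1.2, c.2.1.1), (c.2.2.2, c.2.2.1)) : Cl3))) := by
    refine NPC.Poly.map (F := fun _ (c : NPC.Lit ℕ × NPC.Lit ℕ × NPC.Lit ℕ) =>
      (((c.1.2, c.1.1), (c.2.1.2, c.2.1.1), (c.2.2.2, c.2.2.1)) : Cl3)) NPC.Poly.id ?_
    have h : NPC.Poly (fun p : List (NPC.Lit ℕ × NPC.Lit ℕ × NPC.Lit ℕ) ×
        (NPC.Lit ℕ × NPC.Lit ℕ × NPC.Lit ℕ) => p.2) := NPC.Poly.snd NPC.Poly.id
    exact NPC.Poly.pair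
      (NPC.Poly.pair (NPC.Poly.snd (NPC.Poly.fst h)) (NPC.Poly.fst (NPC.Poly.fst h)))
      (NPC.Poly.pair
        (NPC.Poly.pair (NPC.Poly.snd (NPC.Poly.fst (NPC.Poly.snd h)))
          (NPC.Poly.fst (NPC.Poly.fst (NPC.Poly.snd h))))
        (NPC.Poly.pair (NPC.Poly.snd (NPC.Poly.snd (NPC.Poly.snd h)))
          (NPC.Poly.fst (NPC.Poly.snd (NPC.Poly.snd h)))))
  exact this

theorem sat3_conv (φ : List (NPC.Lit ℕ × NPC.Lit ℕ × NPC.Lit ℕ)) : SAT3 φ ↔ Sat3 (conv φ) := by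
  unfold SAT3 Sat3V Sat3 conv LTrue
  constructor
  · rintro ⟨τ, h⟩
    refine ⟨τ, fun c hc => ?_⟩
    rw [List.mem_map] at hc
    obtain ⟨d, hd, rfl⟩ := hc
    exact h d hd
  · rintro ⟨τ, h⟩
    exact ⟨τ, fun c hc => h _ (List.mem_map.2 ⟨c, hc, rfl⟩)⟩

theorem hard : NPHardP (fun I : Inst => I.GenPCGRecognition) := by
  have h : HardI (fun I : Inst => I.GenPCGRecognition) := by
    refine HardI.trans hardI_SAT3 (f := fun φ => red (conv φ)) (poly_red.comp poly_conv) ?_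
    intro φ
    rw [red_iff, sat3_conv]
  exact h.toNPHardP

end Pool.Agent.H684R2.PCG
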