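import Pool.Agent.H684R2.PCG.Suff

/-!
Instances of generalized PCG recognition as lists.
-/

namespace Pool.Agent.H684R2.PCG

open SimpleGraph

/-- An instance: the list of the vertices (names are natural numbers), the list of the edges
and the list `S` of non-edges. -/
abbrev Inst : Type := List ℕ × List (ℕ × ℕ) × List (ℕ × ℕ)

namespace Inst

/-- The vertex set of an instance. -/
abbrev Vert (I : Inst) : Type := {v : ℕ // v ∈ I.1}

/-- The graph of an instance. -/
def graph (I : Inst) : SimpleGraph I.Vert :=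
  SimpleGraph.fromRel (fun u v => (u.1, v.1) ∈ I.2.1)

/-- The given set of pairs. -/
def forb (I : Inst) : I.Vert → I.Vert → Prop := fun u v => (u.1, v.1) ∈ I.2.2

/-- Well-formed instances: no repeated vertex, edges join distinct vertices, and `S` consists
of pairs of distinct non-adjacent vertices. -/
def WF (I : Inst) : Prop :=
  I.1.Nodup ∧
  (∀ p ∈ I.2.1, p.1 ∈ I.1 ∧ p.2 ∈ I.1 ∧ p.1 ≠ p.2) ∧
  (∀ p ∈ I.2.2, p.1 ∈ I.1 ∧ p.2 ∈ I.1 ∧ p.1 ≠ p.2 ∧ p ∉ I.2.1 ∧ (p.2, p.1) ∉ I.2.1)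

/-- Generalized PCG recognition. -/
def GenPCGRecognition (I : Inst) : Prop := I.WF ∧ GenPCG I.graph I.forb

end Inst

theorem genPCG_fromRel_iff {V : Type} (R S : V → V → Prop) (hR : ∀ u v, R u v → u ≠ v)
    (hS : ∀ u v, S u v → u ≠ v) : GenPCG (SimpleGraph.fromRel R) S ↔ Sandwich R S := by
  constructor
  · rintro ⟨W, hW, T, dmin, dmax, φ, h0, hle, hE, hF⟩
    refine ⟨W, hW, T, dmin, dmax, φ, h0, hle, ?_, ?_⟩
    · intro u v huv
      exact (hE u v ((SimpleGraph.fromRel_adj R u v).2 ⟨hR u v huv, Or.inl huv⟩)).2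
    · intro u v huv h
      exact hF u v huv ⟨fun he => hS u v huv (φ.injective he), h⟩
  · rintro ⟨W, hW, T, dmin, dmax, φ, h0, hle, hE, hF⟩
    refine ⟨W, hW, T, dmin, dmax, φ, h0, hle, ?_, ?_⟩
    · intro u v huv
      rw [SimpleGraph.fromRel_adj] at huv
      refine ⟨fun he => huv.1 (φ.injective he), ?_⟩
      rcases huv.2 with h | h
      · exact hE u v h
      · have := hE v u h
        rw [T.dist_comm] at this
        exact this
    · intro u v huv h
      exact hF u v huv h.2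

theorem sandwich_transport {V V' : Type} (e : V' ≃ V) (E S : V → V → Prop)
    (E' S' : V' → V' → Prop) (hE : ∀ a b, E (e a) (e b) ↔ E' a b)
    (hS : ∀ a b, S (e a) (e b) ↔ S' a b) : Sandwich E S ↔ Sandwich E' S' := by
  constructor
  · rintro ⟨W, hW, T, dmin, dmax, φ, h0, hle, h1, h2⟩
    exact ⟨W, hW, T, dmin, dmax, e.trans φ, h0, hle,
      fun u v h => h1 _ _ ((hE u v).2 h), fun u v h => h2 _ _ ((hS u v).2 h)⟩
  · rintro ⟨W, hW, T, dmin, dmax, φ, h0, hle, h1, h2⟩
    refine ⟨W, hW, T, dmin, dmax, e.symm.trans φ, h0, hle, fun u v h => ?_, fun u v h => ?_⟩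
    · exact h1 _ _ ((hE _ _).1 (by simpa using h))
    · exact h2 _ _ ((hS _ _).1 (by simpa using h))

/-- Names of the leaves of variable gadgets. -/
def vn (x i : ℕ) : ℕ := 3 * (12 * x + i) + 1

/-- Names of the leaves of clause gadgets. -/
def cn (c e : ℕ) : ℕ := 3 * (4 * c + e) + 2

/-- Names. -/
def nm {n m : ℕ} : Vx (Fin n) (Fin m) → ℕ
  | .dum b => if b then 3 else 0
  | .vl x i => vn x i
  | .cl c e => cn c e

theorem nm_injective {n m : ℕ} : Function.Injective (nm (n := n) (m := m)) := by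
  intro u v h
  match u, v with
  | .dum a, .dum b => cases a <;> cases b <;> simp [nm] at h ⊢
  | .dum a, .vl x i =>
    exfalso
    cases a <;> simp only [nm, vn, Bool.false_eq_true, if_false, if_true] at h <;> omega
  | .dum a, .cl x i =>
    exfalso
    cases a <;> simp only [nm, cn, Bool.false_eq_true, if_false, if_true] at h <;> omega
  | .vl x i, .dum a =>
    exfalso
    cases a <;> simp only [nm, vn, Bool.false_eq_true, if_false, if_true] at h <;> omega
  | .cl x i, .dum a =>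
    exfalso
    cases a <;> simp only [nm, cn, Bool.false_eq_true, if_false, if_true] at h <;> omega
  | .vl x i, .cl y j =>
    exfalso
    simp only [nm, vn, cn] at h
    omega
  | .cl x i, .vl y j =>
    exfalso
    simp only [nm, vn, cn] at h
    omega
  | .vl x i, .vl y j =>
    simp only [nm, vn] at h
    have hi := i.2
    have hj := j.2
    have h1 : x = y := Fin.ext (by omega)
    have h2 : i = j := Fin.ext (by omega)
    rw [h1, h2]
  | .cl x i, .cl y j =>
    simp only [nm, cn] at h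
    have hi := i.2
    have hj := j.2
    have h1 : x = y := Fin.ext (by omega)
    have h2 : i = j := Fin.ext (by omega)
    rw [h1, h2]

/-- Literals: a variable and a sign. -/
abbrev Lit : Type := ℕ × Bool

/-- Clauses with four positions. -/
abbrev Cl4 : Type := Lit × Lit × Lit × Lit

/-- The literal at a position. -/
def Cl4.get (cl : Cl4) (k : Fin 4) : Lit :=
  if k = 0 then cl.1 else if k = 1 then cl.2.1 else if k = 2 then cl.2.2.1 else cl.2.2.2

/-- The vertex list. -/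
def mkV (n m : ℕ) : List ℕ :=
  [0, 3] ++ ((List.range n).flatMap (fun x => (List.range 12).map (fun i => vn x i)) ++
    (List.range m).flatMap (fun c => (List.range 4).map (fun e => cn c e)))

/-- Offsets of the edges in variable gadgets. -/
def varE' : List (ℕ × ℕ) :=
  [(0, 2), (1, 3), (4, 5), (6, 7), (8, 9), (10, 11),
   (0, 4), (0, 5), (0, 6), (0, 7), (1, 4), (1, 5), (1, 6), (1, 7),
   (2, 8), (2, 9), (2, 10), (2, 11), (3, 8), (3, 9), (3, 10), (3, 11)]

/-- Offsets of the forbidden pairs in variable gadgets. -/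
def varS' : List (ℕ × ℕ) :=
  [(0, 1), (1, 2), (2, 3), (3, 0), (4, 6), (4, 7), (5, 6), (5, 7),
   (8, 10), (8, 11), (9, 10), (9, 11)]

/-- Offsets of edges in clause gadgets. -/
def clE' : List (ℕ × ℕ) := [(0, 2), (1, 3)]

/-- Offsets of forbidden pairs in clause gadgets. -/
def clS' : List (ℕ × ℕ) := [(0, 1), (1, 2), (2, 3), (3, 0)]

/-- The edges linking the leaves `e, e'` of clause `c` with a literal. -/
def linkE (c e e' : ℕ) (l : Lit) : List (ℕ × ℕ) :=
  if l.2 then [(cn c e, vn l.1 1), (cn c e, vn l.1 2), (cn c e', vn l.1 1), (cn c e', vn l.1 2)]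
  else [(cn c e, vn l.1 3), (cn c e, vn l.1 0), (cn c e', vn l.1 3), (cn c e', vn l.1 0)]

/-- The edges for a clause. -/
def clauseE (c : ℕ) (cl : Cl4) : List (ℕ × ℕ) :=
  clE'.map (fun p => (cn c p.1, cn c p.2)) ++ (linkE c 0 1 cl.1 ++ (linkE c 1 2 cl.2.1 ++
    (linkE c 2 3 cl.2.2.1 ++ linkE c 3 0 cl.2.2.2)))

/-- The edge list. -/
def mkE (n : ℕ) (cls : List Cl4) : List (ℕ × ℕ) :=
  (List.range n).flatMap (fun x => varE'.map (fun p => (vn x p.1, vn x p.2))) ++
    cls.zipIdx.flatMap (fun q => clauseE q.2 q.1)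

/-- The list of forbidden pairs. -/
def mkS (n m : ℕ) : List (ℕ × ℕ) :=
  (List.range n).flatMap (fun x => varS'.map (fun p => (vn x p.1, vn x p.2))) ++
    (List.range m).flatMap (fun c => clS'.map (fun p => (cn c p.1, cn c p.2)))

/-- The instance for a formula with variables `0, ..., n-1`. -/
def mkInst (n : ℕ) (cls : List Cl4) : Inst := (mkV n cls.length, mkE n cls, mkS n cls.length)

/-- The conditions on the clauses. -/
def Good (n : ℕ) (cls : List Cl4) : Prop :=
  ∀ cl ∈ cls, (∀ k, (cl.get k).1 < n) ∧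
    (∀ k, (cl.get k).1 = (cl.get (k + 1)).1 → cl.get k = cl.get (k + 1)) ∧
    (∀ k, (cl.get k).1 ≠ (cl.get (k + 2)).1)

/-- The abstract formula. -/
def toForm (n : ℕ) (cls : List Cl4) (h : Good n cls) : Form (Fin n) (Fin cls.length) where
  lit c k := (⟨((cls.get c).get k).1, (h _ (List.get_mem _ _)).1 k⟩, ((cls.get c).get k).2)
  adj c k hk := by
    have h1 : ((cls.get c).get k).1 = ((cls.get c).get (k + 1)).1 := congrArg Fin.val hk
    have h2 := (h _ (List.get_mem cls c)).2.1 k h1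
    simp only [Prod.mk.injEq, Fin.mk.injEq]
    exact ⟨h1, congrArg Prod.snd h2⟩
  opp c k hk := (h _ (List.get_mem cls c)).2.2 k (congrArg Fin.val hk)

theorem mem_mkV {n m v : ℕ} : v ∈ mkV n m ↔ ∃ a : Vx (Fin n) (Fin m), nm a = v := by
  unfold mkV
  simp only [List.mem_append, List.mem_flatMap, List.mem_map, List.mem_range, List.mem_cons,
    List.not_mem_nil, or_false]
  constructor
  · rintro ((rfl | rfl) | (⟨x, hx, i, hi, rfl⟩ | ⟨c, hc, e, he, rfl⟩))
    · exact ⟨.dum false, rfl⟩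
    · exact ⟨.dum true, rfl⟩
    · exact ⟨.vl ⟨x, hx⟩ ⟨i, hi⟩, rfl⟩
    · exact ⟨.cl ⟨c, hc⟩ ⟨e, he⟩, rfl⟩
  · rintro ⟨a, rfl⟩
    match a with
    | .dum b => cases b <;> simp [nm]
    | .vl x i => exact Or.inr (Or.inl ⟨x, x.2, i, i.2, rfl⟩)
    | .cl c e => exact Or.inr (Or.inr ⟨c, c.2, e, e.2, rfl⟩)

theorem mem_varE {i j : ℕ} : (i, j) ∈ varE' ↔
    ∃ (hi : i < 12) (hj : j < 12), ((⟨i, hi⟩, ⟨j, hj⟩) : Fin 12 × Fin 12) ∈ varE := by
  have : varE' = varE.map (fun p => (p.1.val, p.2.val)) := rfl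
  rw [this, List.mem_map]
  constructor
  · rintro ⟨⟨a, b⟩, hab, h⟩
    simp only [Prod.mk.injEq] at h
    obtain ⟨rfl, rfl⟩ := h
    exact ⟨a.2, b.2, hab⟩
  · rintro ⟨hi, hj, h⟩
    exact ⟨_, h, rfl⟩

theorem mem_varS {i j : ℕ} : (i, j) ∈ varS' ↔
    ∃ (hi : i < 12) (hj : j < 12), ((⟨i, hi⟩, ⟨j, hj⟩) : Fin 12 × Fin 12) ∈ varS := by
  have : varS' = varS.map (fun p => (p.1.val, p.2.val)) := rfl
  rw [this, List.mem_map]
  constructor
  · rintro ⟨⟨a, b⟩, hab, h⟩
    simp only [Prod.mk.injEq] at h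
    obtain ⟨rfl, rfl⟩ := h
    exact ⟨a.2, b.2, hab⟩
  · rintro ⟨hi, hj, h⟩
    exact ⟨_, h, rfl⟩

theorem mem_clE {i j : ℕ} : (i, j) ∈ clE' ↔
    ∃ (hi : i < 4) (hj : j < 4), ((⟨i, hi⟩, ⟨j, hj⟩) : Fin 4 × Fin 4) ∈ clE := by
  have : clE' = clE.map (fun p => (p.1.val, p.2.val)) := rfl
  rw [this, List.mem_map]
  constructor
  · rintro ⟨⟨a, b⟩, hab, h⟩
    simp only [Prod.mk.injEq] at h
    obtain ⟨rfl, rfl⟩ := h
    exact ⟨a.2, b.2, hab⟩
  · rintro ⟨hi, hj, h⟩
    exact ⟨_, h, rfl⟩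

theorem mem_clS {i j : ℕ} : (i, j) ∈ clS' ↔
    ∃ (hi : i < 4) (hj : j < 4), ((⟨i, hi⟩, ⟨j, hj⟩) : Fin 4 × Fin 4) ∈ clS := by
  have : clS' = clS.map (fun p => (p.1.val, p.2.val)) := rfl
  rw [this, List.mem_map]
  constructor
  · rintro ⟨⟨a, b⟩, hab, h⟩
    simp only [Prod.mk.injEq] at h
    obtain ⟨rfl, rfl⟩ := h
    exact ⟨a.2, b.2, hab⟩
  · rintro ⟨hi, hj, h⟩
    exact ⟨_, h, rfl⟩

end Pool.Agent.H684R2.PCG
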