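import Pool.Agent.H684R2.PCG.Inst

/-!
Correctness of the concrete instance.
-/

namespace Pool.Agent.H684R2.PCG

open SimpleGraph

theorem mem_linkE {c e e' : ℕ} {l : Lit} {p : ℕ × ℕ} : p ∈ linkE c e e' l ↔
    ∃ f, (f = e ∨ f = e') ∧ ∃ u ∈ litPair l.2, (cn c f, vn l.1 u.val) = p := by
  obtain ⟨x, b⟩ := l
  cases b
  · simp only [linkE, litPair, Bool.false_eq_true, if_false, List.mem_cons, List.not_mem_nil,
      or_false]
    constructor
    · rintro (rfl | rfl | rfl | rfl)
      · exact ⟨e, Or.inl rfl, 3, Or.inl rfl, rfl⟩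
      · exact ⟨e, Or.inl rfl, 0, Or.inr rfl, rfl⟩
      · exact ⟨e', Or.inr rfl, 3, Or.inl rfl, rfl⟩
      · exact ⟨e', Or.inr rfl, 0, Or.inr rfl, rfl⟩
    · rintro ⟨f, rfl | rfl, u, rfl | rfl, rfl⟩
      · left; rfl
      · right; left; rfl
      · right; right; left; rfl
      · right; right; right; rfl
  · simp only [linkE, litPair, if_true, List.mem_cons, List.not_mem_nil,
      or_false]
    constructor
    · rintro (rfl | rfl | rfl | rfl)
      · exact ⟨e, Or.inl rfl, 1, Or.inl rfl, rfl⟩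
      · exact ⟨e, Or.inl rfl, 2, Or.inr rfl, rfl⟩
      · exact ⟨e', Or.inr rfl, 1, Or.inl rfl, rfl⟩
      · exact ⟨e', Or.inr rfl, 2, Or.inr rfl, rfl⟩
    · rintro ⟨f, rfl | rfl, u, rfl | rfl, rfl⟩
      · left; rfl
      · right; left; rfl
      · right; right; left; rfl
      · right; right; right; rfl

theorem mem_clauseE {c : ℕ} {cl : Cl4} {p : ℕ × ℕ} : p ∈ clauseE c cl ↔
    (∃ q ∈ clE, (cn c q.1.val, cn c q.2.val) = p) ∨
    ∃ k e : Fin 4, (e = k ∨ e = k + 1) ∧ ∃ u ∈ litPair (cl.get k).2,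
      (cn c e.val, vn (cl.get k).1 u.val) = p := by
  unfold clauseE
  have h1 : clE'.map (fun p => (cn c p.1, cn c p.2)) =
      clE.map (fun q => (cn c q.1.val, cn c q.2.val)) := rfl
  rw [h1, List.mem_append, List.mem_append, List.mem_append, List.mem_append, List.mem_map,
    mem_linkE, mem_linkE, mem_linkE, mem_linkE]
  have g0 : cl.get 0 = cl.1 := rfl
  have g1 : cl.get 1 = cl.2.1 := rfl
  have g2 : cl.get 2 = cl.2.2.1 := rfl
  have g3 : cl.get 3 = cl.2.2.2 := rfl
  constructor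
  · rintro (h | ⟨f, hf, u, hu, h⟩ | ⟨f, hf, u, hu, h⟩ | ⟨f, hf, u, hu, h⟩ | ⟨f, hf, u, hu, h⟩)
    · exact Or.inl h
    · rcases hf with rfl | rfl
      · exact Or.inr ⟨0, 0, Or.inl rfl, u, hu, h⟩
      · exact Or.inr ⟨0, 1, Or.inr rfl, u, hu, h⟩
    · rcases hf with rfl | rfl
      · exact Or.inr ⟨1, 1, Or.inl rfl, u, hu, h⟩
      · exact Or.inr ⟨1, 2, Or.inr rfl, u, hu, h⟩
    · rcases hf with rfl | rfl
      · exact Or.inr ⟨2, 2, Or.inl rfl, u, hu, h⟩
      · exact Or.inr ⟨2, 3, Or.inr rfl, u, hu, h⟩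
    · rcases hf with rfl | rfl
      · exact Or.inr ⟨3, 3, Or.inl rfl, u, hu, h⟩
      · exact Or.inr ⟨3, 0, Or.inr rfl, u, hu, h⟩
  · rintro (h | ⟨k, e, he, u, hu, h⟩)
    · exact Or.inl h
    · right
      have hk : k = 0 ∨ k = 1 ∨ k = 2 ∨ k = 3 := by
        have : ∀ k : Fin 4, k = 0 ∨ k = 1 ∨ k = 2 ∨ k = 3 := by decide
        exact this k
      rcases hk with rfl | rfl | rfl | rfl
      · left
        rcases he with rfl | rfl
        · exact ⟨0, Or.inl rfl, u, hu, h⟩
        · exact ⟨1, Or.inr rfl, u, hu, h⟩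
      · right; left
        rcases he with rfl | rfl
        · exact ⟨1, Or.inl rfl, u, hu, h⟩
        · exact ⟨2, Or.inr rfl, u, hu, h⟩
      · right; right; left
        rcases he with rfl | rfl
        · exact ⟨2, Or.inl rfl, u, hu, h⟩
        · exact ⟨3, Or.inr rfl, u, hu, h⟩
      · right; right; right
        rcases he with rfl | rfl
        · exact ⟨3, Or.inl rfl, u, hu, h⟩
        · exact ⟨0, Or.inr rfl, u, hu, h⟩

theorem mem_mkE {n : ℕ} {cls : List Cl4} (hg : Good n cls) {p : ℕ × ℕ} :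
    p ∈ mkE n cls ↔ ∃ a b, (toForm n cls hg).ERel a b ∧ (nm a, nm b) = p := by
  unfold mkE
  rw [List.mem_append, List.mem_flatMap, List.mem_flatMap]
  constructor
  · rintro (⟨x, hx, h⟩ | ⟨⟨cl, c⟩, hc, h⟩)
    · rw [List.mem_range] at hx
      rw [List.mem_map] at h
      obtain ⟨⟨i, j⟩, hij, rfl⟩ := h
      obtain ⟨hi, hj, hm⟩ := mem_varE.1 hij
      exact ⟨.vl ⟨x, hx⟩ ⟨i, hi⟩, .vl ⟨x, hx⟩ ⟨j, hj⟩, .var _ _ _ hm, rfl⟩
    · rw [List.mem_zipIdx_iff_getElem?] at hc
      simp only at hc h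
      obtain ⟨hlt, hget⟩ := List.getElem?_eq_some_iff.1 hc
      have hgc : cls.get ⟨c, hlt⟩ = cl := hget
      rw [mem_clauseE] at h
      rcases h with ⟨⟨i, j⟩, hij, rfl⟩ | ⟨k, e, he, u, hu, rfl⟩
      · exact ⟨.cl ⟨c, hlt⟩ i, .cl ⟨c, hlt⟩ j, .cla _ _ _ hij, rfl⟩
      · refine ⟨.cl ⟨c, hlt⟩ e, .vl ((toForm n cls hg).lit ⟨c, hlt⟩ k).1 u,
          .link _ k e u he ?_, ?_⟩
        · simp only [toForm, hgc]
          exact hu
        · simp only [toForm, nm, hgc]
  · rintro ⟨a, b, hab, rfl⟩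
    cases hab with
    | var x i j h =>
      left
      refine ⟨x, List.mem_range.2 x.2, ?_⟩
      rw [List.mem_map]
      exact ⟨(i, j), mem_varE.2 ⟨i.2, j.2, h⟩, rfl⟩
    | cla c i j h =>
      right
      refine ⟨(cls.get c, c.val), ?_, ?_⟩
      · rw [List.mem_zipIdx_iff_getElem?]
        simp
      · rw [mem_clauseE]
        left
        exact ⟨(i, j), h, rfl⟩
    | link c k e u he hu =>
      right
      refine ⟨(cls.get c, c.val), ?_, ?_⟩
      · rw [List.mem_zipIdx_iff_getElem?]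
        simp
      · rw [mem_clauseE]
        right
        exact ⟨k, e, he, u, hu, rfl⟩

theorem mem_mkS {n m : ℕ} {p : ℕ × ℕ} :
    p ∈ mkS n m ↔ ∃ a b, SRel (X := Fin n) (C := Fin m) a b ∧ (nm a, nm b) = p := by
  unfold mkS
  rw [List.mem_append, List.mem_flatMap, List.mem_flatMap]
  constructor
  · rintro (⟨x, hx, h⟩ | ⟨c, hc, h⟩)
    · rw [List.mem_range] at hx
      rw [List.mem_map] at h
      obtain ⟨⟨i, j⟩, hij, rfl⟩ := h
      obtain ⟨hi, hj, hm⟩ := mem_varS.1 hij
      exact ⟨.vl ⟨x, hx⟩ ⟨i, hi⟩, .vl ⟨x, hx⟩ ⟨j, hj⟩, .var _ _ _ hm, rfl⟩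
    · rw [List.mem_range] at hc
      rw [List.mem_map] at h
      obtain ⟨⟨i, j⟩, hij, rfl⟩ := h
      obtain ⟨hi, hj, hm⟩ := mem_clS.1 hij
      exact ⟨.cl ⟨c, hc⟩ ⟨i, hi⟩, .cl ⟨c, hc⟩ ⟨j, hj⟩, .cla _ _ _ hm, rfl⟩
  · rintro ⟨a, b, hab, rfl⟩
    cases hab with
    | var x i j h =>
      left
      refine ⟨x, List.mem_range.2 x.2, ?_⟩
      rw [List.mem_map]
      exact ⟨(i, j), mem_varS.2 ⟨i.2, j.2, h⟩, rfl⟩
    | cla c i j h =>
      right
      refine ⟨c, List.mem_range.2 c.2, ?_⟩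
      rw [List.mem_map]
      exact ⟨(i, j), mem_clS.2 ⟨i.2, j.2, h⟩, rfl⟩

theorem Form.ERel.ne {X C : Type} {F : Form X C} {a b : Vx X C} (h : F.ERel a b) : a ≠ b := by
  cases h with
  | var x i j h =>
    have : ∀ i j : Fin 12, (i, j) ∈ varE → i ≠ j := by decide
    simpa using this i j h
  | cla c i j h =>
    have : ∀ i j : Fin 4, (i, j) ∈ clE → i ≠ j := by decide
    simpa using this i j h
  | link c k e u he hu => simp

theorem SRel.ne {X C : Type} {a b : Vx X C} (h : SRel a b) : a ≠ b := by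
  cases h with
  | var x i j h =>
    have : ∀ i j : Fin 12, (i, j) ∈ varS → i ≠ j := by decide
    simpa using this i j h
  | cla c i j h =>
    have : ∀ i j : Fin 4, (i, j) ∈ clS → i ≠ j := by decide
    simpa using this i j h

theorem SRel.not_ERel {X C : Type} {F : Form X C} {a b : Vx X C} (h : SRel a b) :
    ¬ F.ERel a b ∧ ¬ F.ERel b a := by
  cases h with
  | var x i j h =>
    have h1 : ∀ i j : Fin 12, (i, j) ∈ varS → (i, j) ∉ varE ∧ (j, i) ∉ varE := by decide
    constructor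
    · intro h2
      cases h2 with
      | var _ _ _ h' => exact (h1 i j h).1 h'
    · intro h2
      cases h2 with
      | var _ _ _ h' => exact (h1 i j h).2 h'
  | cla c i j h =>
    have h1 : ∀ i j : Fin 4, (i, j) ∈ clS → (i, j) ∉ clE ∧ (j, i) ∉ clE := by decide
    constructor
    · intro h2
      cases h2 with
      | cla _ _ _ h' => exact (h1 i j h).1 h'
    · intro h2
      cases h2 with
      | cla _ _ _ h' => exact (h1 i j h).2 h'

theorem nodup_mkV (n m : ℕ) : (mkV n m).Nodup := by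
  unfold mkV
  rw [List.nodup_append]
  refine ⟨by decide, ?_, ?_⟩
  · rw [List.nodup_append]
    refine ⟨?_, ?_, ?_⟩
    · rw [List.nodup_flatMap]
      constructor
      · intro x _
        apply List.Nodup.map
        · intro i j h
          simp only [vn] at h
          omega
        · exact List.nodup_range
      · apply List.Pairwise.imp_of_mem _ (List.nodup_range (n := n))
        intro a b _ _ hab
        rw [Function.onFun, List.disjoint_left]
        intro v hv hv2
        rw [List.mem_map] at hv hv2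
        obtain ⟨i, hi, rfl⟩ := hv
        obtain ⟨j, hj, h⟩ := hv2
        rw [List.mem_range] at hi hj
        simp only [vn] at h
        omega
    · rw [List.nodup_flatMap]
      constructor
      · intro x _
        apply List.Nodup.map
        · intro i j h
          simp only [cn] at h
          omega
        · exact List.nodup_range
      · apply List.Pairwise.imp_of_mem _ (List.nodup_range (n := m))
        intro a b _ _ hab
        rw [Function.onFun, List.disjoint_left]
        intro v hv hv2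
        rw [List.mem_map] at hv hv2
        obtain ⟨i, hi, rfl⟩ := hv
        obtain ⟨j, hj, h⟩ := hv2
        rw [List.mem_range] at hi hj
        simp only [cn] at h
        omega
    · intro a ha b hb hab
      simp only [List.mem_flatMap, List.mem_map] at ha hb
      obtain ⟨x, _, i, _, rfl⟩ := ha
      obtain ⟨c, _, e, _, rfl⟩ := hb
      simp only [vn, cn] at hab
      omega
  · intro a ha b hb hab
    simp only [List.mem_append, List.mem_flatMap, List.mem_map] at hb
    simp only [List.mem_cons, List.not_mem_nil, or_false] at ha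
    rcases hb with ⟨x, _, i, _, rfl⟩ | ⟨c, _, e, _, rfl⟩
    · simp only [vn] at hab
      omega
    · simp only [cn] at hab
      omega

theorem mkInst_WF {n : ℕ} {cls : List Cl4} (hg : Good n cls) : (mkInst n cls).WF := by
  refine ⟨nodup_mkV _ _, ?_, ?_⟩
  · intro p hp
    obtain ⟨a, b, hab, rfl⟩ := (mem_mkE hg).1 hp
    exact ⟨mem_mkV.2 ⟨a, rfl⟩, mem_mkV.2 ⟨b, rfl⟩, fun h => hab.ne (nm_injective h)⟩
  · intro p hp
    obtain ⟨a, b, hab, rfl⟩ := mem_mkS.1 hp
    refine ⟨mem_mkV.2 ⟨a, rfl⟩, mem_mkV.2 ⟨b, rfl⟩, fun h => hab.ne (nm_injective h), ?_, ?_⟩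
    · intro h
      obtain ⟨a', b', hab', he⟩ := (mem_mkE hg).1 h
      simp only [Prod.mk.injEq] at he
      obtain ⟨h1, h2⟩ := he
      rw [nm_injective h1, nm_injective h2] at hab'
      exact (hab.not_ERel (F := toForm n cls hg)).1 hab'
    · intro h
      obtain ⟨a', b', hab', he⟩ := (mem_mkE hg).1 h
      simp only [Prod.mk.injEq] at he
      obtain ⟨h1, h2⟩ := he
      rw [nm_injective h1, nm_injective h2] at hab'
      exact (hab.not_ERel (F := toForm n cls hg)).2 hab'

/-- The identification of abstract vertices with the vertices of the instance. -/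
noncomputable def vEquiv (n : ℕ) (cls : List Cl4) :
    Vx (Fin n) (Fin cls.length) ≃ (mkInst n cls).Vert :=
  Equiv.ofBijective (fun a => ⟨nm a, mem_mkV.2 ⟨a, rfl⟩⟩)
    ⟨fun a b h => nm_injective (congrArg Subtype.val h), fun ⟨v, hv⟩ => by
      obtain ⟨a, rfl⟩ := mem_mkV.1 hv
      exact ⟨a, rfl⟩⟩

theorem mkInst_iff {n : ℕ} {cls : List Cl4} (hg : Good n cls) :
    (mkInst n cls).GenPCGRecognition ↔ (toForm n cls hg).Sat := by
  have hwf := mkInst_WF hg
  unfold Inst.GenPCGRecognition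
  rw [← sandwich_iff]
  have h1 : GenPCG (mkInst n cls).graph (mkInst n cls).forb ↔
      Sandwich (fun u v : (mkInst n cls).Vert => (u.1, v.1) ∈ (mkInst n cls).2.1)
        (mkInst n cls).forb := by
    apply genPCG_fromRel_iff
    · intro u v h he
      exact (hwf.2.1 _ h).2.2 (congrArg Subtype.val he)
    · intro u v h he
      exact (hwf.2.2 _ h).2.2.1 (congrArg Subtype.val he)
  rw [h1, sandwich_transport (vEquiv n cls) _ _ (toForm n cls hg).ERel SRel]
  · exact ⟨fun h => h.2, fun h => ⟨hwf, h⟩⟩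
  · intro a b
    show (nm a, nm b) ∈ mkE n cls ↔ _
    rw [mem_mkE hg]
    constructor
    · rintro ⟨a', b', hab, he⟩
      simp only [Prod.mk.injEq] at he
      rw [← nm_injective he.1, ← nm_injective he.2]
      exact hab
    · intro h
      exact ⟨a, b, h, rfl⟩
  · intro a b
    show (nm a, nm b) ∈ mkS n cls.length ↔ _
    rw [mem_mkS]
    constructor
    · rintro ⟨a', b', hab, he⟩
      simp only [Prod.mk.injEq] at he
      rw [← nm_injective he.1, ← nm_injective he.2]
      exact hab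
    · intro h
      exact ⟨a, b, h, rfl⟩

end Pool.Agent.H684R2.PCG
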