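import Pool.Agent.H684R2.PCG.FromSat
import Pool.Agent.NPC.Num

/-!
The reduction is polynomial-time computable.
-/

namespace Pool.Agent.H684R2.PCG

open Pool.Agent.NPC

variable {α : Type} [TEnc α]

theorem poly_vn {x i : α → ℕ} (hx : NPC.Poly x) (hi : NPC.Poly i) : NPC.Poly (fun a => vn (x a) (i a)) := by
  unfold vn
  exact NPC.Poly.add (NPC.Poly.mul (NPC.Poly.const 3) (NPC.Poly.add (NPC.Poly.mul (NPC.Poly.const 12) hx) hi))
    (NPC.Poly.const 1)

theorem poly_cn {x i : α → ℕ} (hx : NPC.Poly x) (hi : NPC.Poly i) : NPC.Poly (fun a => cn (x a) (i a)) := by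
  unfold cn
  exact NPC.Poly.add (NPC.Poly.mul (NPC.Poly.const 3) (NPC.Poly.add (NPC.Poly.mul (NPC.Poly.const 4) hx) hi))
    (NPC.Poly.const 2)

theorem poly_mkV {n m : α → ℕ} (hn : UPoly n) (hm : UPoly m) :
    NPC.Poly (fun a => mkV (n a) (m a)) := by
  unfold mkV
  refine NPC.Poly.append (NPC.Poly.const _) (NPC.Poly.append ?_ ?_)
  · refine NPC.Poly.flatMap (F := fun _ x => (List.range 12).map (fun i => vn x i)) hn.range ?_
    refine NPC.Poly.map (F := fun (p : α × ℕ) i => vn p.2 i) (NPC.Poly.const _) ?_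
    exact poly_vn (NPC.Poly.snd (NPC.Poly.fst NPC.Poly.id)) (NPC.Poly.snd NPC.Poly.id)
  · refine NPC.Poly.flatMap (F := fun _ c => (List.range 4).map (fun e => cn c e)) hm.range ?_
    refine NPC.Poly.map (F := fun (p : α × ℕ) i => cn p.2 i) (NPC.Poly.const _) ?_
    exact poly_cn (NPC.Poly.snd (NPC.Poly.fst NPC.Poly.id)) (NPC.Poly.snd NPC.Poly.id)

theorem poly_mkS {n m : α → ℕ} (hn : UPoly n) (hm : UPoly m) :
    NPC.Poly (fun a => mkS (n a) (m a)) := by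
  unfold mkS
  refine NPC.Poly.append ?_ ?_
  · refine NPC.Poly.flatMap (F := fun _ x => varS'.map (fun p => (vn x p.1, vn x p.2))) hn.range ?_
    refine NPC.Poly.map (F := fun (q : α × ℕ) (p : ℕ × ℕ) => (vn q.2 p.1, vn q.2 p.2))
      (NPC.Poly.const _) ?_
    exact NPC.Poly.pair (poly_vn (NPC.Poly.snd (NPC.Poly.fst NPC.Poly.id)) (NPC.Poly.fst (NPC.Poly.snd NPC.Poly.id)))
      (poly_vn (NPC.Poly.snd (NPC.Poly.fst NPC.Poly.id)) (NPC.Poly.snd (NPC.Poly.snd NPC.Poly.id)))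
  · refine NPC.Poly.flatMap (F := fun _ c => clS'.map (fun p => (cn c p.1, cn c p.2))) hm.range ?_
    refine NPC.Poly.map (F := fun (q : α × ℕ) (p : ℕ × ℕ) => (cn q.2 p.1, cn q.2 p.2))
      (NPC.Poly.const _) ?_
    exact NPC.Poly.pair (poly_cn (NPC.Poly.snd (NPC.Poly.fst NPC.Poly.id)) (NPC.Poly.fst (NPC.Poly.snd NPC.Poly.id)))
      (poly_cn (NPC.Poly.snd (NPC.Poly.fst NPC.Poly.id)) (NPC.Poly.snd (NPC.Poly.snd NPC.Poly.id)))

theorem poly_link4 {c e e' x : α → ℕ} (i j : ℕ) (hc : NPC.Poly c) (he : NPC.Poly e) (he' : NPC.Poly e')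
    (hx : NPC.Poly x) : NPC.Poly (fun a => [(cn (c a) (e a), vn (x a) i), (cn (c a) (e a), vn (x a) j),
      (cn (c a) (e' a), vn (x a) i), (cn (c a) (e' a), vn (x a) j)]) := by
  refine NPC.Poly.cons (NPC.Poly.pair (poly_cn hc he) (poly_vn hx (NPC.Poly.const i))) ?_
  refine NPC.Poly.cons (NPC.Poly.pair (poly_cn hc he) (poly_vn hx (NPC.Poly.const j))) ?_
  refine NPC.Poly.cons (NPC.Poly.pair (poly_cn hc he') (poly_vn hx (NPC.Poly.const i))) ?_
  refine NPC.Poly.cons (NPC.Poly.pair (poly_cn hc he') (poly_vn hx (NPC.Poly.const j))) ?_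
  exact NPC.Poly.const _

theorem poly_linkE {c e e' : α → ℕ} {l : α → Lit} (hc : NPC.Poly c) (he : NPC.Poly e) (he' : NPC.Poly e')
    (hl : NPC.Poly l) : NPC.Poly (fun a => linkE (c a) (e a) (e' a) (l a)) := by
  unfold linkE
  refine NPC.Poly.ite (p := fun a => (l a).2 = true) ?_ ?_ ?_
  · exact NPC.Poly.decide_bool (NPC.Poly.snd hl)
  · exact poly_link4 1 2 hc he he' (NPC.Poly.fst hl)
  · exact poly_link4 3 0 hc he he' (NPC.Poly.fst hl)

theorem poly_clauseE {c : α → ℕ} {cl : α → Cl4} (hc : NPC.Poly c) (hl : NPC.Poly cl) :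
    NPC.Poly (fun a => clauseE (c a) (cl a)) := by
  unfold clauseE
  refine NPC.Poly.append ?_ (NPC.Poly.append ?_ (NPC.Poly.append ?_ (NPC.Poly.append ?_ ?_)))
  · refine NPC.Poly.map (F := fun (a : α) (p : ℕ × ℕ) => (cn (c a) p.1, cn (c a) p.2))
      (NPC.Poly.const _) ?_
    exact NPC.Poly.pair (poly_cn (hc.comp (NPC.Poly.fst NPC.Poly.id)) (NPC.Poly.fst (NPC.Poly.snd NPC.Poly.id)))
      (poly_cn (hc.comp (NPC.Poly.fst NPC.Poly.id)) (NPC.Poly.snd (NPC.Poly.snd NPC.Poly.id)))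
  · exact poly_linkE hc (NPC.Poly.const _) (NPC.Poly.const _) (NPC.Poly.fst hl)
  · exact poly_linkE hc (NPC.Poly.const _) (NPC.Poly.const _) (NPC.Poly.fst (NPC.Poly.snd hl))
  · exact poly_linkE hc (NPC.Poly.const _) (NPC.Poly.const _) (NPC.Poly.fst (NPC.Poly.snd (NPC.Poly.snd hl)))
  · exact poly_linkE hc (NPC.Poly.const _) (NPC.Poly.const _) (NPC.Poly.snd (NPC.Poly.snd (NPC.Poly.snd hl)))

theorem poly_mkE {n : α → ℕ} {cls : α → List Cl4} (hn : UPoly n) (hl : NPC.Poly cls) :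
    NPC.Poly (fun a => mkE (n a) (cls a)) := by
  unfold mkE
  refine NPC.Poly.append ?_ ?_
  · refine NPC.Poly.flatMap (F := fun _ x => varE'.map (fun p => (vn x p.1, vn x p.2))) hn.range ?_
    refine NPC.Poly.map (F := fun (q : α × ℕ) (p : ℕ × ℕ) => (vn q.2 p.1, vn q.2 p.2))
      (NPC.Poly.const _) ?_
    exact NPC.Poly.pair (poly_vn (NPC.Poly.snd (NPC.Poly.fst NPC.Poly.id)) (NPC.Poly.fst (NPC.Poly.snd NPC.Poly.id)))
      (poly_vn (NPC.Poly.snd (NPC.Poly.fst NPC.Poly.id)) (NPC.Poly.snd (NPC.Poly.snd NPC.Poly.id)))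
  · refine NPC.Poly.flatMap (F := fun _ (q : Cl4 × ℕ) => clauseE q.2 q.1) (NPC.Poly.zipIdx hl) ?_
    exact poly_clauseE (NPC.Poly.snd (NPC.Poly.snd NPC.Poly.id)) (NPC.Poly.fst (NPC.Poly.snd NPC.Poly.id))

theorem poly_mkInst {n : α → ℕ} {cls : α → List Cl4} (hn : UPoly n) (hl : NPC.Poly cls) :
    NPC.Poly (fun a => mkInst (n a) (cls a)) := by
  unfold mkInst
  exact NPC.Poly.pair (poly_mkV hn (UPoly.length hl)) (NPC.Poly.pair (poly_mkE hn hl)
    (poly_mkS hn (UPoly.length hl)))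

theorem poly_occ : NPC.Poly occ := by
  have : NPC.Poly (fun φ : List Cl3 => φ.flatMap (fun c => [c.1, c.2.1, c.2.2])) := by
    refine NPC.Poly.flatMap (F := fun _ (c : Cl3) => [c.1, c.2.1, c.2.2]) NPC.Poly.id ?_
    refine NPC.Poly.cons (NPC.Poly.fst (NPC.Poly.snd NPC.Poly.id)) ?_
    refine NPC.Poly.cons (NPC.Poly.fst (NPC.Poly.snd (NPC.Poly.snd NPC.Poly.id))) ?_
    exact NPC.Poly.cons (NPC.Poly.snd (NPC.Poly.snd (NPC.Poly.snd NPC.Poly.id))) (NPC.Poly.const _)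
  exact this

theorem poly_mains : NPC.Poly mains := by
  have : NPC.Poly (fun φ : List Cl3 => (List.range φ.length).map (fun c =>
    ((((3 * c, true), (3 * c, true), (3 * c + 1, true), (3 * c + 2, true)) : Cl4)))) := by
    refine NPC.Poly.map (F := fun _ (c : ℕ) =>
      (((3 * c, true), (3 * c, true), (3 * c + 1, true), (3 * c + 2, true)) : Cl4))
      (NPC.Poly.range_length NPC.Poly.id) ?_
    have h3 : NPC.Poly (fun p : List Cl3 × ℕ => 3 * p.2) :=
      NPC.Poly.mul (NPC.Poly.const 3) (NPC.Poly.snd NPC.Poly.id)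
    refine NPC.Poly.pair (NPC.Poly.pair h3 (NPC.Poly.const _)) (NPC.Poly.pair (NPC.Poly.pair h3 (NPC.Poly.const _))
      (NPC.Poly.pair (NPC.Poly.pair (NPC.Poly.add h3 (NPC.Poly.const 1)) (NPC.Poly.const _))
        (NPC.Poly.pair (NPC.Poly.add h3 (NPC.Poly.const 2)) (NPC.Poly.const _))))
  exact this

theorem poly_compl {l l' : α → Lit} (hl : NPC.Poly l) (hl' : NPC.Poly l') :
    NPC.Poly (fun a => compl (l a) (l' a)) := by
  unfold compl
  exact NPC.Poly.and (NPC.Poly.decide_eq (NPC.Poly.fst hl) (NPC.Poly.fst hl'))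
    (NPC.Poly.xor (NPC.Poly.snd hl) (NPC.Poly.snd hl'))

theorem poly_confs : NPC.Poly confs := by
  have : NPC.Poly (fun φ : List Cl3 => (occ φ).zipIdx.flatMap (fun p =>
      ((occ φ).zipIdx.filter (fun q => compl p.1 q.1)).map
      (fun q => (((p.2, false), (p.2, false), (q.2, false), (q.2, false)) : Cl4)))) := by
    refine NPC.Poly.flatMap (F := fun φ (p : Lit × ℕ) =>
      ((occ φ).zipIdx.filter (fun q => compl p.1 q.1)).map
      (fun q => (((p.2, false), (p.2, false), (q.2, false), (q.2, false)) : Cl4)))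
      (NPC.Poly.zipIdx poly_occ) ?_
    refine NPC.Poly.map (F := fun (a : List Cl3 × (Lit × ℕ)) (q : Lit × ℕ) =>
      (((a.2.2, false), (a.2.2, false), (q.2, false), (q.2, false)) : Cl4)) ?_ ?_
    · refine NPC.Poly.filter (p := fun (a : List Cl3 × (Lit × ℕ)) (q : Lit × ℕ) => compl a.2.1 q.1)
        ?_ ?_
      · exact NPC.Poly.zipIdx (poly_occ.comp (NPC.Poly.fst NPC.Poly.id))
      · exact poly_compl (NPC.Poly.fst (NPC.Poly.snd (NPC.Poly.fst NPC.Poly.id))) (NPC.Poly.fst (NPC.Poly.snd NPC.Poly.id))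
    · have h1 : NPC.Poly (fun p : (List Cl3 × (Lit × ℕ)) × (Lit × ℕ) => (p.1.2.2, false)) :=
        NPC.Poly.pair (NPC.Poly.snd (NPC.Poly.snd (NPC.Poly.fst NPC.Poly.id))) (NPC.Poly.const _)
      have h2 : NPC.Poly (fun p : (List Cl3 × (Lit × ℕ)) × (Lit × ℕ) => (p.2.2, false)) :=
        NPC.Poly.pair (NPC.Poly.snd (NPC.Poly.snd NPC.Poly.id)) (NPC.Poly.const _)
      exact NPC.Poly.pair h1 (NPC.Poly.pair h1 (NPC.Poly.pair h2 h2))
  exact this

theorem poly_cls4 : NPC.Poly cls4 := by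
  have : NPC.Poly (fun φ => mains φ ++ confs φ) := NPC.Poly.append poly_mains poly_confs
  exact this

theorem poly_red : NPC.Poly red := by
  have : NPC.Poly (fun φ : List Cl3 => mkInst (3 * φ.length) (cls4 φ)) :=
    poly_mkInst (UPoly.mul (UPoly.const 3) (UPoly.length NPC.Poly.id)) poly_cls4
  exact this

end Pool.Agent.H684R2.PCG
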