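import Pool.Agent.H684R2.PCG.FourPoint

/-!
Weighted trees given by parent pointers.
-/

namespace Pool.Agent.H684R2.PCG

open SimpleGraph

/-- Data of a rooted tree with lengths. -/
structure Rooted (W : Type) where
  root : W
  parent : W → W
  rank : W → ℕ
  len : W → ℝ
  rank_root : rank root = 0
  rank_parent : ∀ x, x ≠ root → rank (parent x) < rank x
  len_pos : ∀ x, x ≠ root → 0 < len x

namespace Rooted

variable {W : Type} (R : Rooted W)

/-- The graph. -/
def graph : SimpleGraph W where
  Adj x y := (x ≠ R.root ∧ R.parent x = y) ∨ (y ≠ R.root ∧ R.parent y = x)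
  symm := ⟨fun x y h => h.symm⟩
  loopless := ⟨fun x h => by
    rcases h with h | h
    · have := R.rank_parent x h.1
      rw [h.2] at this
      exact lt_irrefl _ this
    · have := R.rank_parent x h.1
      rw [h.2] at this
      exact lt_irrefl _ this⟩

theorem adj_parent {x : W} (h : x ≠ R.root) : R.graph.Adj x (R.parent x) := Or.inl ⟨h, rfl⟩

theorem ne_root_of_rank_pos {x : W} (h : 0 < R.rank x) : x ≠ R.root := by
  rintro rfl
  rw [R.rank_root] at h
  exact lt_irrefl _ h

theorem rank_pos {x : W} (h : x ≠ R.root) : 0 < R.rank x :=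
  lt_of_le_of_lt (Nat.zero_le _) (R.rank_parent x h)

theorem parent_of_adj {x y : W} (h : R.graph.Adj x y) (hr : R.rank y ≤ R.rank x) :
    x ≠ R.root ∧ R.parent x = y := by
  rcases h with h | h
  · exact h
  · have := R.rank_parent y h.1
    rw [h.2] at this
    omega

theorem exists_good_path : ∀ (n : ℕ) (x y : W), R.rank x + R.rank y ≤ n →
    ∃ p : R.graph.Walk x y, p.IsPath ∧
      ∀ v ∈ p.support, v = x ∨ v = y ∨ R.rank v < max (R.rank x) (R.rank y) := by
  intro n
  induction n with
  | zero =>
    intro x y h
    have hx : x = R.root := by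
      by_contra hne
      have := R.rank_pos hne
      omega
    have hy : y = R.root := by
      by_contra hne
      have := R.rank_pos hne
      omega
    subst hx
    subst hy
    exact ⟨Walk.nil, Walk.IsPath.nil, fun v hv => Or.inl (by simpa using hv)⟩
  | succ n ih =>
    -- it suffices to treat the case rank y ≤ rank x
    have key : ∀ (x y : W), R.rank x + R.rank y ≤ n + 1 → R.rank y ≤ R.rank x →
        ∃ p : R.graph.Walk x y, p.IsPath ∧
          ∀ v ∈ p.support, v = x ∨ v = y ∨ R.rank v < max (R.rank x) (R.rank y) := by
      intro x y h hle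
      by_cases hxy : x = y
      · subst hxy
        exact ⟨Walk.nil, Walk.IsPath.nil, fun v hv => Or.inl (by simpa using hv)⟩
      have hx : x ≠ R.root := by
        intro hx
        subst hx
        rw [R.rank_root] at hle
        have hy : y ≠ R.root := fun h => hxy h.symm
        have := R.rank_pos hy
        omega
      have hp := R.rank_parent x hx
      obtain ⟨p, hp1, hp2⟩ := ih (R.parent x) y (by omega)
      have hnot : x ∉ p.support := by
        intro hmem
        rcases hp2 x hmem with h1 | h1 | h1
        · rw [← h1] at hp
          exact lt_irrefl _ hp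
        · exact hxy h1
        · have := max_le hp.le hle
          omega
      refine ⟨Walk.cons (R.adj_parent hx) p, ?_, ?_⟩
      · rw [Walk.cons_isPath_iff]
        exact ⟨hp1, hnot⟩
      · intro v hv
        rw [Walk.support_cons, List.mem_cons] at hv
        rcases hv with hv | hv
        · exact Or.inl hv
        · rcases hp2 v hv with h1 | h1 | h1
          · subst h1
            right; right
            exact lt_of_lt_of_le hp (le_max_left _ _)
          · exact Or.inr (Or.inl h1)
          · right; right
            exact lt_of_lt_of_le h1 (max_le_max hp.le le_rfl)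
    intro x y h
    rcases le_total (R.rank y) (R.rank x) with hle | hle
    · exact key x y h hle
    · obtain ⟨p, hp, hp2⟩ := key y x (by omega) hle
      refine ⟨p.reverse, hp.reverse, ?_⟩
      intro v hv
      rw [Walk.support_reverse, List.mem_reverse] at hv
      rcases hp2 v hv with h1 | h1 | h1
      · exact Or.inr (Or.inl h1)
      · exact Or.inl h1
      · rw [max_comm] at h1
        exact Or.inr (Or.inr h1)

theorem isAcyclic : R.graph.IsAcyclic := by
  classical
  intro v c hc
  -- a vertex of maximal rank on the cycle
  obtain ⟨x, hx, hmax⟩ : ∃ x ∈ c.support, ∀ y ∈ c.support, R.rank y ≤ R.rank x := by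
    have hne : c.support.toFinset.Nonempty := ⟨v, by simp⟩
    obtain ⟨x, hx, hmax⟩ := Finset.exists_max_image c.support.toFinset R.rank hne
    exact ⟨x, by simpa using hx, fun y hy => hmax y (by simpa using hy)⟩
  have hc' := (Walk.isCycle_rotate hx).2 hc
  set c' := c.rotate x hx with hc'def
  have hsup : ∀ y ∈ c'.support, R.rank y ≤ R.rank x := by
    intro y hy
    apply hmax
    exact (Walk.mem_support_rotate_iff c x hx).1 hy
  have hn : ¬ c'.Nil := hc'.not_nil
  have a1 := c'.adj_snd hn
  have a2 := c'.adj_penultimate hn
  have h1 := R.parent_of_adj a1 (hsup _ (Walk.getVert_mem_support _ _))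
  have h2 := R.parent_of_adj a2.symm (hsup _ (Walk.getVert_mem_support _ _))
  exact hc'.snd_ne_penultimate (h1.2.symm.trans h2.2)

theorem isTree : R.graph.IsTree := by
  refine ⟨?_, R.isAcyclic⟩
  have : Nonempty W := ⟨R.root⟩
  refine Connected.mk ?_
  intro x y
  obtain ⟨p, _⟩ := R.exists_good_path _ x y le_rfl
  exact ⟨p⟩

/-- The weight function. -/
def wt : Sym2 W → ℝ :=
  Sym2.lift ⟨fun x y => if R.rank x < R.rank y then R.len y else
    if R.rank y < R.rank x then R.len x else 0, by
      intro x y
      beta_reduce
      by_cases h1 : R.rank x < R.rank y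
      · rw [if_pos h1, if_neg (by omega), if_pos h1]
      · by_cases h2 : R.rank y < R.rank x
        · rw [if_neg h1, if_pos h2, if_pos h2]
        · rw [if_neg h1, if_neg h2, if_neg h2, if_neg h1]⟩

theorem wt_parent {x : W} (h : x ≠ R.root) : R.wt s(x, R.parent x) = R.len x := by
  have := R.rank_parent x h
  unfold wt
  rw [Sym2.lift_mk]
  simp only
  rw [if_neg (by omega), if_pos this]

/-- The weighted tree. -/
def tree : WTree W where
  graph := R.graph
  isTree := R.isTree
  weight := R.wt
  weight_pos := by
    intro e
    induction e using Sym2.ind with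
    | _ x y =>
      intro h
      rw [mem_edgeSet] at h
      rcases h with ⟨h1, h2⟩ | ⟨h1, h2⟩
      · subst h2
        rw [R.wt_parent h1]
        exact R.len_pos x h1
      · subst h2
        rw [Sym2.eq_swap, R.wt_parent h1]
        exact R.len_pos y h1

theorem dist_step {x y : W} (hxy : x ≠ y) (hle : R.rank y ≤ R.rank x) :
    R.tree.dist x y = R.len x + R.tree.dist (R.parent x) y := by
  have hx : x ≠ R.root := by
    intro hx
    subst hx
    rw [R.rank_root] at hle
    have hy : y ≠ R.root := fun h => hxy h.symm
    have := R.rank_pos hy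
    omega
  have hp := R.rank_parent x hx
  obtain ⟨p, hp1, hp2⟩ := R.exists_good_path _ (R.parent x) y le_rfl
  have hnot : x ∉ p.support := by
    intro hmem
    rcases hp2 x hmem with h1 | h1 | h1
    · rw [← h1] at hp
      exact lt_irrefl _ hp
    · exact hxy h1
    · have := max_le hp.le hle
      omega
  have hP : (Walk.cons (R.adj_parent hx) p).IsPath := by
    rw [Walk.cons_isPath_iff]
    exact ⟨hp1, hnot⟩
  rw [R.tree.dist_eq (Walk.cons (R.adj_parent hx) p) hP, R.tree.dist_eq p hp1]
  unfold WTree.walkWeight
  rw [Walk.edges_cons, List.map_cons, List.sum_cons]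
  congr 1
  exact R.wt_parent hx

end Rooted

end Pool.Agent.H684R2.PCG
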