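import Pool.Agent.H684R2.PCG.Embed

/-!
Sufficiency: a satisfying assignment gives a tree.
-/

namespace Pool.Agent.H684R2.PCG

open SimpleGraph

variable {X C : Type} (F : Form X C) (asg : X → Bool) (w : C → Fin 4)

theorem par_cl (c : C) (i : Fin 4) :
    par F asg w (.leaf (.cl c (w c + i))) = .m c (decide (i = 1 ∨ i = 2)) := by
  simp [par]

theorem len_cl (c : C) (i : Fin 4) :
    lenF F asg w (.leaf (.cl c (w c + i))) = if i = 0 ∨ i = 1 then 97 else 79 := by
  simp [lenF]

theorem dd_m_m' (c : C) : dd F asg w (.m c false) (.m c true) = 24 := by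
  apply dd_m_m
  intro _ _
  have h := F.opp c (w c + 1)
  have e : w c + 1 + 2 = w c + 3 := by
    rw [add_assoc]
    rfl
  rw [e] at h
  simpa [side] using h.symm

theorem dd_m_m'' (c : C) : dd F asg w (.m c true) (.m c false) = 24 := by
  rw [dd_comm, dd_m_m']

theorem clE_ok' (c : C) (i : Fin 4) :
    184 ≤ dd F asg w (.leaf (.cl c (w c + i))) (.leaf (.cl c (w c + i + 2))) ∧
      dd F asg w (.leaf (.cl c (w c + i))) (.leaf (.cl c (w c + i + 2))) ≤ 216 := by
  rw [add_assoc]
  have hne : i ≠ i + 2 := by
    revert i
    decide
  rw [dd_leaf F asg w (by simp), len_cl, len_cl, par_cl, par_cl]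
  have h : i = 0 ∨ i = 1 ∨ i = 2 ∨ i = 3 := by
    revert i
    decide
  rcases h with rfl | rfl | rfl | rfl
  · have e : (0 : Fin 4) + 2 = 2 := rfl
    rw [e]
    simp [dd_m_m']
    norm_num
  · have e : (1 : Fin 4) + 2 = 3 := rfl
    rw [e]
    simp [dd_m_m'']
    norm_num
  · have e : (2 : Fin 4) + 2 = 0 := rfl
    rw [e]
    simp [dd_m_m'']
    norm_num
  · have e : (3 : Fin 4) + 2 = 1 := rfl
    rw [e]
    simp [dd_m_m']
    norm_num

theorem clS_ok' (c : C) (i : Fin 4) :
    ¬ (184 ≤ dd F asg w (.leaf (.cl c (w c + i))) (.leaf (.cl c (w c + i + 1))) ∧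
      dd F asg w (.leaf (.cl c (w c + i))) (.leaf (.cl c (w c + i + 1))) ≤ 216) := by
  rw [add_assoc]
  have hne : i ≠ i + 1 := by
    revert i
    decide
  rw [dd_leaf F asg w (by simp), len_cl, len_cl, par_cl, par_cl]
  have h : i = 0 ∨ i = 1 ∨ i = 2 ∨ i = 3 := by
    revert i
    decide
  rcases h with rfl | rfl | rfl | rfl
  · have e : (0 : Fin 4) + 1 = 1 := rfl
    rw [e]
    simp [dd_m_m']
    norm_num
  · have e : (1 : Fin 4) + 1 = 2 := rfl
    rw [e]
    simp [dd_self]
    norm_num
  · have e : (2 : Fin 4) + 1 = 3 := rfl
    rw [e]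
    simp [dd_m_m'']
    norm_num
  · have e : (3 : Fin 4) + 1 = 0 := rfl
    rw [e]
    simp [dd_self]
    norm_num

theorem clE_ok (c : C) (i j : Fin 4) (h : (i, j) ∈ clE) :
    184 ≤ dd F asg w (.leaf (.cl c i)) (.leaf (.cl c j)) ∧
      dd F asg w (.leaf (.cl c i)) (.leaf (.cl c j)) ≤ 216 := by
  have hj : j = i + 2 := by
    revert i j h
    decide
  subst hj
  have := clE_ok' F asg w c (i - w c)
  simpa using this

theorem clS_ok (c : C) (i j : Fin 4) (h : (i, j) ∈ clS) :
    ¬ (184 ≤ dd F asg w (.leaf (.cl c i)) (.leaf (.cl c j)) ∧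
      dd F asg w (.leaf (.cl c i)) (.leaf (.cl c j)) ≤ 216) := by
  have hj : j = i + 1 := by
    revert i j h
    decide
  subst hj
  have := clS_ok' F asg w c (i - w c)
  simpa using this

theorem lit_leaf (c : C) (k : Fin 4) (u : Fin 12) (hu : u ∈ litPair (F.lit c k).2) :
    lenF F asg w (.leaf (.vl (F.lit c k).1 u)) = (if tv F asg c k then 79 else 97) ∧
    ∃ b, par F asg w (.leaf (.vl (F.lit c k).1 u)) = .n (F.lit c k).1 b := by
  unfold tv
  rcases hb : (F.lit c k).2 with _ | _
  · rw [hb] at hu
    simp only [litPair, List.mem_cons, List.not_mem_nil, or_false] at hu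
    rcases hu with rfl | rfl
    · refine ⟨?_, true, by simp [par, vParent]⟩
      rcases ha : asg (F.lit c k).1 with _ | _ <;> simp [lenF, vLen, mainSign, exc, ha] <;>
        norm_num
    · refine ⟨?_, false, by simp [par, vParent]⟩
      rcases ha : asg (F.lit c k).1 with _ | _ <;> simp [lenF, vLen, mainSign, exc, ha] <;>
        norm_num
  · rw [hb] at hu
    simp only [litPair, List.mem_cons, List.not_mem_nil, or_false] at hu
    rcases hu with rfl | rfl
    · refine ⟨?_, false, by simp [par, vParent]⟩
      rcases ha : asg (F.lit c k).1 with _ | _ <;> simp [lenF, vLen, mainSign, exc, ha] <;>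
        norm_num
    · refine ⟨?_, true, by simp [par, vParent]⟩
      rcases ha : asg (F.lit c k).1 with _ | _ <;> simp [lenF, vLen, mainSign, exc, ha] <;>
        norm_num

/-- The distance condition for a link, in terms of the combinatorial situation. -/
theorem link_core (c : C) (s : Bool) (x : X) (b : Bool) (tvk long : Bool)
    (h1 : long = true → tvk = false →
      tv F asg c (side w c s) = false ∧ (F.lit c (side w c s)).1 = x)
    (h2 : long = false → tvk = true →
      tv F asg c (side w c s) = true ∨ (F.lit c (side w c s)).1 ≠ x) :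
    184 ≤ (if long then 97 else 79) + (if tvk then 79 else 97) +
        dd F asg w (.m c s) (.n x b) ∧
      (if long then 97 else 79) + (if tvk then 79 else 97) +
        dd F asg w (.m c s) (.n x b) ≤ (216 : ℝ) := by
  by_cases halong : tv F asg c (side w c s) = false ∧ (F.lit c (side w c s)).1 = x
  · rw [dd_m_n_along F asg w c s x b halong.1 halong.2]
    cases long <;> cases tvk
    · cases b <;> norm_num
    · exfalso
      rcases h2 rfl rfl with h | h
      · rw [halong.1] at h
        exact Bool.false_ne_true h
      · exact h halong.2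
    · cases b <;> norm_num
    · cases b <;> norm_num
  · have hoff : tv F asg c (side w c s) = true ∨ (F.lit c (side w c s)).1 ≠ x := by
      by_contra hcon
      rw [not_or, not_not] at hcon
      exact halong ⟨by simpa using hcon.1, hcon.2⟩
    rw [dd_m_n_off F asg w c s x b hoff]
    cases long <;> cases tvk
    · cases b <;> norm_num
    · cases b <;> norm_num
    · exact absurd (h1 rfl rfl) halong
    · cases b <;> norm_num

theorem link_ok (hw : ∀ c, tv F asg c (w c) = true) (c : C) (k e : Fin 4) (u : Fin 12)
    (he : e = k ∨ e = k + 1) (hu : u ∈ litPair (F.lit c k).2) :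
    184 ≤ dd F asg w (.leaf (.cl c e)) (.leaf (.vl (F.lit c k).1 u)) ∧
      dd F asg w (.leaf (.cl c e)) (.leaf (.vl (F.lit c k).1 u)) ≤ 216 := by
  obtain ⟨hl, b, hp⟩ := lit_leaf F asg w c k u hu
  rw [dd_leaf F asg w (by simp), hl, hp]
  obtain ⟨i, rfl⟩ : ∃ i, e = w c + i := ⟨e - w c, by simp⟩
  rw [len_cl, par_cl]
  have hall : ∀ i : Fin 4, i = 0 ∨ i = 1 ∨ i = 2 ∨ i = 3 := by decide
  have hi := hall i
  have hwc := hw c
  have hk : k = w c + i ∨ k = w c + (i + 3) := by
    rcases he with he | he
    · left; exact he.symm
    · right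
      have e4 : (1 : Fin 4) + 3 = 0 := rfl
      rw [← add_assoc, he, add_assoc, e4, add_zero]
  have e13 : (1 : Fin 4) + 3 = 0 := rfl
  have e23 : (2 : Fin 4) + 3 = 1 := rfl
  have e33 : (3 : Fin 4) + 3 = 2 := rfl
  have adj12 : (F.lit c (w c + 1)).1 = (F.lit c (w c + 2)).1 →
      F.lit c (w c + 1) = F.lit c (w c + 2) := by
    have := F.adj c (w c + 1)
    rw [add_assoc] at this
    exact this
  have adj23 : (F.lit c (w c + 2)).1 = (F.lit c (w c + 3)).1 →
      F.lit c (w c + 2) = F.lit c (w c + 3) := by
    have := F.adj c (w c + 2)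
    rw [add_assoc] at this
    exact this
  rcases hi with rfl | rfl | rfl | rfl
  · -- i = 0 : side false, long
    have := link_core F asg w c false (F.lit c k).1 b (tv F asg c k) true ?_ ?_
    · simpa using this
    · intro _ hk0
      rcases hk with hk | hk
      · rw [hk, add_zero, hwc] at hk0
        exact absurd hk0 (by decide)
      · rw [zero_add] at hk
        subst hk
        exact ⟨by simpa [side] using hk0, by simp [side]⟩
    · intro h
      exact absurd h (by decide)
  · -- i = 1 : side true, long
    have := link_core F asg w c true (F.lit c k).1 b (tv F asg c k) true ?_ ?_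
    · simpa using this
    · intro _ hk0
      rcases hk with hk | hk
      · subst hk
        exact ⟨by simpa [side] using hk0, by simp [side]⟩
      · rw [hk, e13, add_zero, hwc] at hk0
        exact absurd hk0 (by decide)
    · intro h
      exact absurd h (by decide)
  · -- i = 2 : side true, short
    have := link_core F asg w c true (F.lit c k).1 b (tv F asg c k) false ?_ ?_
    · simpa using this
    · intro h
      exact absurd h (by decide)
    · intro _ hk1
      rcases hk with hk | hk
      · subst hk
        by_cases hv : (F.lit c (w c + 1)).1 = (F.lit c (w c + 2)).1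
        · left
          have h12 := adj12 hv
          simp only [side, if_true]
          unfold tv at hk1 ⊢
          rw [h12]
          exact hk1
        · right
          simpa [side] using hv
      · rw [e23] at hk
        subst hk
        left
        simpa [side] using hk1
  · -- i = 3 : side false, short
    have := link_core F asg w c false (F.lit c k).1 b (tv F asg c k) false ?_ ?_
    · simpa using this
    · intro h
      exact absurd h (by decide)
    · intro _ hk1
      rcases hk with hk | hk
      · subst hk
        left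
        simpa [side] using hk1
      · rw [e33] at hk
        subst hk
        by_cases hv : (F.lit c (w c + 2)).1 = (F.lit c (w c + 3)).1
        · left
          have h23 := adj23 hv
          have : tv F asg c (w c + 3) = true := by
            unfold tv at hk1 ⊢
            rw [← h23]
            exact hk1
          simpa [side] using this
        · right
          simp only [side, Bool.false_eq_true, if_false]
          exact fun h => hv h.symm

theorem sandwich_of_sat [Finite X] [Finite C] (h : F.Sat) :
    Sandwich F.ERel (SRel (X := X) (C := C)) := by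
  obtain ⟨asg, hsat⟩ := h
  choose w hw using hsat
  have hw' : ∀ c, tv F asg c (w c) = true := fun c => by
    unfold tv
    simpa using hw c
  refine ⟨Node X C, inferInstance, (rooted F asg w).tree, 184, 216, leafEquiv F asg w,
    by norm_num, by norm_num, ?_, ?_⟩
  · intro u v huv
    cases huv with
    | var x i j h => exact varE_ok F asg w x i j h
    | cla c i j h => exact clE_ok F asg w c i j h
    | link c k e u he hu => exact link_ok F asg w hw' c k e u he hu
  · intro u v huv
    cases huv with
    | var x i j h => exact varS_ok F asg w x i j h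
    | cla c i j h => exact clS_ok F asg w c i j h

/-- The gadget theorem. -/
theorem sandwich_iff [Finite X] [Finite C] :
    Sandwich F.ERel (SRel (X := X) (C := C)) ↔ F.Sat :=
  ⟨F.sat_of_sandwich, sandwich_of_sat F⟩

end Pool.Agent.H684R2.PCG
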